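import Mathlib

set_option autoImplicit false

namespace Pool.Agent.H793.ZI

open Matrix Finset
open scoped ComplexOrder Matrix

/-- A unit vector is the first column of a unitary matrix. -/
theorem exists_unitary_col {m : ℕ} (v : EuclideanSpace ℂ (Fin (m + 1))) (hv : ‖v‖ = 1) :
    ∃ V : Matrix (Fin (m + 1)) (Fin (m + 1)) ℂ, Vᴴ * V = 1 ∧ V * Vᴴ = 1 ∧ ∀ i, V i 0 = v i := by
  have ho : Orthonormal ℂ (({0} : Set (Fin (m + 1))).domRestrict fun _ => v) := by
    refine ⟨fun i => hv, fun i j hij => absurd ?_ hij⟩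
    exact Subsingleton.elim (α := ({0} : Set (Fin (m + 1)))) i j
  obtain ⟨b, hb⟩ := ho.exists_orthonormalBasis_extension_of_card_eq (by simp)
  refine ⟨(EuclideanSpace.basisFun _ ℂ).toBasis.toMatrix b.toBasis, ?_, ?_, ?_⟩
  · have := (EuclideanSpace.basisFun (Fin (m + 1)) ℂ).toMatrix_orthonormalBasis_mem_unitary b
    rw [← star_eq_conjTranspose]
    exact (Unitary.mem_iff.1 this).1
  · have := (EuclideanSpace.basisFun (Fin (m + 1)) ℂ).toMatrix_orthonormalBasis_mem_unitary b
    rw [← star_eq_conjTranspose]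
    exact (Unitary.mem_iff.1 this).2
  · intro i
    rw [Module.Basis.toMatrix_apply]
    simp [hb 0 rfl]

theorem exists_eigvec {m : ℕ} (M : Matrix (Fin (m + 1)) (Fin (m + 1)) ℂ) :
    ∃ (v : EuclideanSpace ℂ (Fin (m + 1))) (c : ℂ), ‖v‖ = 1 ∧ M *ᵥ (v : Fin (m + 1) → ℂ) = c • (v : Fin (m + 1) → ℂ) := by
  obtain ⟨c, hc⟩ := Module.End.exists_eigenvalue (Matrix.toLin' M)
  obtain ⟨v, hv⟩ := hc.exists_hasEigenvector
  have h1 : M *ᵥ v = c • v := by simpa [Matrix.toLin'_apply] using hv.apply_eq_smul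
  have h0 : v ≠ 0 := hv.2
  let w : EuclideanSpace ℂ (Fin (m + 1)) := WithLp.toLp 2 v
  have hw : w ≠ 0 := fun h => h0 (by simpa [w] using h)
  have hn : (‖w‖ : ℂ) ≠ 0 := by exact_mod_cast norm_ne_zero_iff.2 hw
  refine ⟨((‖w‖ : ℂ)⁻¹) • w, c, ?_, ?_⟩
  · rw [norm_smul, norm_inv, Complex.norm_real, norm_norm, inv_mul_cancel₀ (norm_ne_zero_iff.2 hw)]
  · have : ((((‖w‖ : ℂ)⁻¹) • w : EuclideanSpace ℂ (Fin (m + 1))) : Fin (m + 1) → ℂ) = ((‖w‖ : ℂ)⁻¹) • v := by
      simp [w]
    rw [this, Matrix.mulVec_smul, h1, smul_comm]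

/-- **Schur triangularisation.** -/
theorem schur : ∀ (m : ℕ) (M : Matrix (Fin m) (Fin m) ℂ),
    ∃ U : Matrix (Fin m) (Fin m) ℂ, Uᴴ * U = 1 ∧ U * Uᴴ = 1 ∧
      ∀ i j, j < i → (Uᴴ * M * U) i j = 0 := by
  intro m
  induction m with
  | zero => intro M; exact ⟨1, by simp, by simp, fun i => i.elim0⟩
  | succ m ih =>
    intro M
    obtain ⟨v, c, hv, hM⟩ := exists_eigvec M
    obtain ⟨V, hV, hV', h0⟩ := exists_unitary_col v hv
    obtain ⟨W, hW, hW', hT⟩ := ih ((Vᴴ * M * V).submatrix Fin.succ Fin.succ)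
    let W1 : Matrix (Fin (m + 1)) (Fin (m + 1)) ℂ :=
      Matrix.of (Fin.cons (Fin.cons 1 fun _ => 0) fun i => Fin.cons 0 (W i))
    have w00 : W1 0 0 = 1 := rfl
    have w0s : ∀ j : Fin m, W1 0 j.succ = 0 := fun j => rfl
    have ws0 : ∀ j : Fin m, W1 j.succ 0 = 0 := fun j => rfl
    have wss : ∀ i j : Fin m, W1 i.succ j.succ = W i j := fun i j => rfl
    have hN0 : ∀ i : Fin m, (Vᴴ * M * V) i.succ 0 = 0 := by
      intro i
      have h1 : ∀ l, (M * V) l 0 = c * V l 0 := by
        intro l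
        have := congrFun hM l
        rw [Matrix.mul_apply]
        simp only [h0]
        simpa [Matrix.mulVec, dotProduct] using this
      have h2 := congrFun (congrFun hV i.succ) 0
      rw [Matrix.mul_apply, Matrix.one_apply_ne (Fin.succ_ne_zero i)] at h2
      rw [Matrix.mul_assoc, Matrix.mul_apply]
      simp only [h1, mul_left_comm _ c, ← Finset.mul_sum, h2, mul_zero]
    have hW1 : W1ᴴ * W1 = 1 := by
      ext i j
      rw [Matrix.mul_apply, Fin.sum_univ_succ]
      refine Fin.cases ?_ (fun i => ?_) i <;> refine Fin.cases ?_ (fun j => ?_) j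
      · simp [conjTranspose_apply, w00, ws0]
      · simp [conjTranspose_apply, w00, ws0, w0s, Matrix.one_apply]
        exact fun h => absurd h.symm (Fin.succ_ne_zero j)
      · simp [conjTranspose_apply, w00, ws0, w0s, Matrix.one_apply]
      · have := congrFun (congrFun hW i) j
        rw [Matrix.mul_apply] at this
        simp only [conjTranspose_apply, w0s, wss, star_zero, zero_mul, zero_add]
        simp only [conjTranspose_apply] at this
        rw [this]
        simp [Matrix.one_apply]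
    have hW1' : W1 * W1ᴴ = 1 := mul_eq_one_comm.1 hW1
    refine ⟨V * W1, ?_, ?_, ?_⟩
    · rw [conjTranspose_mul, Matrix.mul_assoc, ← Matrix.mul_assoc Vᴴ, hV, Matrix.one_mul, hW1]
    · rw [conjTranspose_mul, Matrix.mul_assoc, ← Matrix.mul_assoc W1, hW1', Matrix.one_mul, hV']
    · intro i j hij
      have e : (V * W1)ᴴ * M * (V * W1) = W1ᴴ * ((Vᴴ * M * V) * W1) := by
        rw [conjTranspose_mul]; simp only [Matrix.mul_assoc]
      rw [e]
      generalize hNN : Vᴴ * M * V = N at hN0 hT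
      revert hij
      refine Fin.cases ?_ (fun i => ?_) i
      · intro h; exact absurd h (Fin.not_lt_zero _)
      · refine Fin.cases ?_ (fun j => ?_) j
        · intro _
          rw [Matrix.mul_apply, Fin.sum_univ_succ]
          simp only [conjTranspose_apply, w0s, wss, star_zero, zero_mul, zero_add]
          refine Finset.sum_eq_zero fun l _ => ?_
          rw [Matrix.mul_apply, Fin.sum_univ_succ]
          simp [w00, ws0, hN0]
        · intro hij
          have hij' : j < i := Fin.succ_lt_succ_iff.1 hij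
          rw [← hT i j hij', Matrix.mul_apply, Fin.sum_univ_succ]
          simp only [conjTranspose_apply, w0s, wss, star_zero, zero_mul, zero_add]
          rw [Matrix.mul_assoc, Matrix.mul_apply]
          refine Finset.sum_congr rfl fun l _ => ?_
          simp only [conjTranspose_apply]
          congr 1
          rw [Matrix.mul_apply, Fin.sum_univ_succ, Matrix.mul_apply]
          simp [w0s, wss]

theorem tri_mul {m : ℕ} {P Q : Matrix (Fin m) (Fin m) ℂ} (hP : ∀ i j, j < i → P i j = 0)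
    (hQ : ∀ i j, j < i → Q i j = 0) :
    (∀ i j, j < i → (P * Q) i j = 0) ∧ ∀ i, (P * Q) i i = P i i * Q i i := by
  constructor
  · intro i j hij
    rw [Matrix.mul_apply]
    refine Finset.sum_eq_zero fun l _ => ?_
    rcases lt_or_ge l i with h | h
    · rw [hP i l h, zero_mul]
    · rw [hQ l j (hij.trans_le h), mul_zero]
  · intro i
    rw [Matrix.mul_apply]
    refine Finset.sum_eq_single_of_mem i (mem_univ _) fun l _ hl => ?_
    rcases lt_or_gt_of_ne hl with h | h
    · rw [hP i l h, zero_mul]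
    · rw [hQ l i h, mul_zero]

theorem tri_pow {m : ℕ} {P : Matrix (Fin m) (Fin m) ℂ} (hP : ∀ i j, j < i → P i j = 0) (p : ℕ) :
    (∀ i j, j < i → (P ^ p) i j = 0) ∧ ∀ i, (P ^ p) i i = P i i ^ p := by
  induction p with
  | zero =>
    refine ⟨fun i j h => ?_, fun i => ?_⟩
    · rw [pow_zero]; exact Matrix.one_apply_ne h.ne'
    · rw [pow_zero, pow_zero, Matrix.one_apply_eq]
  | succ p ih =>
    rw [pow_succ]
    obtain ⟨h1, h2⟩ := tri_mul ih.1 hP
    exact ⟨h1, fun i => by rw [h2, ih.2, pow_succ]⟩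

theorem trace_conj {n : Type*} [Fintype n] [DecidableEq n] {U : Matrix n n ℂ} (hU' : U * Uᴴ = 1)
    (M : Matrix n n ℂ) : trace (Uᴴ * M * U) = trace M := by
  rw [Matrix.trace_mul_comm, ← Matrix.mul_assoc, hU', Matrix.one_mul]

theorem conj_pow {n : Type*} [Fintype n] [DecidableEq n] {U : Matrix n n ℂ} (hU : Uᴴ * U = 1)
    (hU' : U * Uᴴ = 1) (M : Matrix n n ℂ) (p : ℕ) : (Uᴴ * M * U) ^ p = Uᴴ * M ^ p * U := by
  induction p with
  | zero => simp [hU]
  | succ p ih =>
    rw [pow_succ, ih, pow_succ]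
    calc Uᴴ * M ^ p * U * (Uᴴ * M * U) = Uᴴ * M ^ p * (U * Uᴴ) * M * U := by
          simp only [Matrix.mul_assoc]
      _ = _ := by rw [hU']; simp only [Matrix.mul_assoc, Matrix.one_mul]

/-- Traces of powers via a Schur basis, for matrices over any finite index type. -/
theorem schur_trace {n : Type*} [Fintype n] [DecidableEq n] (M : Matrix n n ℂ) :
    ∃ U : Matrix n n ℂ, Uᴴ * U = 1 ∧ U * Uᴴ = 1 ∧
      ∀ p : ℕ, trace (M ^ p) = ∑ i, ((Uᴴ * M * U) i i) ^ p := by
  let e := Fintype.equivFin n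
  obtain ⟨U, hU, hU', hT⟩ := schur _ (M.submatrix e.symm e.symm)
  have key : ∀ A B : Matrix (Fin (Fintype.card n)) (Fin (Fintype.card n)) ℂ,
      A.submatrix e e * B.submatrix e e = (A * B).submatrix e e := fun A B => by
    rw [Matrix.submatrix_mul_equiv]
  have hM : M = (M.submatrix e.symm e.symm).submatrix e e := by
    ext i j; simp
  refine ⟨U.submatrix e e, ?_, ?_, fun p => ?_⟩
  · rw [conjTranspose_submatrix, key, hU]; simp
  · rw [conjTranspose_submatrix, key, hU']; simp
  · have h1 : ∀ p, trace (M ^ p) = trace ((M.submatrix e.symm e.symm) ^ p) := by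
      intro p
      have : (M.submatrix e.symm e.symm) ^ p = (M ^ p).submatrix e.symm e.symm := by
        induction p with
        | zero => simp
        | succ p ih => rw [pow_succ, ih, pow_succ, Matrix.submatrix_mul_equiv]
      rw [this, Matrix.trace, Matrix.trace]
      exact (Equiv.sum_comp e.symm fun i => (M ^ p) i i).symm
    have h2 := tri_pow hT p
    rw [h1, ← trace_conj hU', ← conj_pow hU hU', Matrix.trace]
    simp only [diag_apply, h2.2]
    rw [← Equiv.sum_comp e]
    refine Finset.sum_congr rfl fun i _ => ?_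
    congr 1
    conv_rhs => rw [hM]
    rw [conjTranspose_submatrix, key, key]
    rfl

end Pool.Agent.H793.ZI
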