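import Mathlib
import Pool.Agent.H793.ZI.Schur

set_option autoImplicit false

namespace Pool.Agent.H793.ZI

open Matrix Finset
open scoped ComplexOrder Matrix

variable {n : Type*} [Fintype n] [DecidableEq n]

theorem exists_diag {A : Matrix n n ℂ} (hA : A.IsHermitian) :
    ∃ (U : Matrix n n ℂ) (d : n → ℝ), Uᴴ * U = 1 ∧ U * Uᴴ = 1 ∧
      A = U * diagonal (fun i => (d i : ℂ)) * Uᴴ := by
  refine ⟨hA.eigenvectorUnitary, hA.eigenvalues, ?_, ?_, ?_⟩
  · rw [← star_eq_conjTranspose]; exact Unitary.coe_star_mul_self hA.eigenvectorUnitary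
  · rw [← star_eq_conjTranspose]; exact Unitary.coe_mul_star_self hA.eigenvectorUnitary
  · have := hA.spectral_theorem
    rw [Unitary.conjStarAlgAut_apply] at this
    exact this

/-- The `p`-th power of a diagonalised matrix. -/
theorem pow_conj {U : Matrix n n ℂ} (hU : Uᴴ * U = 1) (hU' : U * Uᴴ = 1) (M : Matrix n n ℂ) (p : ℕ) :
    (U * M * Uᴴ) ^ p = U * M ^ p * Uᴴ := by
  induction p with
  | zero => simp [hU']
  | succ p ih =>
    rw [pow_succ, ih, pow_succ]
    calc U * M ^ p * Uᴴ * (U * M * Uᴴ) = U * M ^ p * (Uᴴ * U) * M * Uᴴ := by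
          simp only [Matrix.mul_assoc]
      _ = _ := by rw [hU]; simp only [Matrix.mul_assoc, Matrix.one_mul]

theorem row_norm {U : Matrix n n ℂ} (hU' : U * Uᴴ = 1) (i : n) : ∑ j, ‖U i j‖ ^ 2 = 1 := by
  have := congrFun (congrFun hU' i) i
  rw [Matrix.mul_apply, Matrix.one_apply_eq] at this
  have h2 : ((∑ j, ‖U i j‖ ^ 2 : ℝ) : ℂ) = 1 := by
    rw [← this]
    push_cast
    refine Finset.sum_congr rfl fun j _ => ?_
    rw [conjTranspose_apply, Complex.star_def, Complex.mul_conj, Complex.normSq_eq_norm_sq]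
    push_cast; rfl
  exact_mod_cast h2

theorem col_norm {U : Matrix n n ℂ} (hU : Uᴴ * U = 1) (j : n) : ∑ i, ‖U i j‖ ^ 2 = 1 := by
  have := row_norm (U := Uᴴ) (by rwa [conjTranspose_conjTranspose]) j
  simpa [conjTranspose_apply] using this

theorem diag_entry {U : Matrix n n ℂ} (d : n → ℂ) (i : n) :
    (U * diagonal d * Uᴴ) i i = ∑ j, d j * (‖U i j‖ ^ 2 : ℝ) := by
  rw [Matrix.mul_apply]
  refine Finset.sum_congr rfl fun j _ => ?_
  rw [mul_diagonal, conjTranspose_apply, Complex.star_def, mul_comm (U i j), mul_assoc,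
    Complex.mul_conj, Complex.normSq_eq_norm_sq]

theorem diag_pow_entry {U : Matrix n n ℂ} (hU : Uᴴ * U = 1) (hU' : U * Uᴴ = 1) (d : n → ℝ)
    (p : ℕ) (i : n) :
    ((U * diagonal (fun i => (d i : ℂ)) * Uᴴ) ^ p) i i =
      ((∑ j, d j ^ p * ‖U i j‖ ^ 2 : ℝ) : ℂ) := by
  rw [pow_conj hU hU', diagonal_pow, diag_entry]
  push_cast
  rfl

theorem exists_diag_nonneg {A : Matrix n n ℂ} (hA : A.PosSemidef) :
    ∃ (U : Matrix n n ℂ) (d : n → ℝ), Uᴴ * U = 1 ∧ U * Uᴴ = 1 ∧ (∀ i, 0 ≤ d i) ∧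
      A = U * diagonal (fun i => (d i : ℂ)) * Uᴴ := by
  have hH := hA.isHermitian
  refine ⟨hH.eigenvectorUnitary, hH.eigenvalues, ?_, ?_, hA.eigenvalues_nonneg, ?_⟩
  · rw [← star_eq_conjTranspose]; exact Unitary.coe_star_mul_self hH.eigenvectorUnitary
  · rw [← star_eq_conjTranspose]; exact Unitary.coe_mul_star_self hH.eigenvectorUnitary
  · have := hH.spectral_theorem
    rw [Unitary.conjStarAlgAut_apply] at this
    exact this

/-- The diagonal entries of powers of a positive semidefinite matrix. -/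
theorem diag_pow_le {A : Matrix n n ℂ} (hA : A.PosSemidef) (p : ℕ) (i : n) :
    (A i i).re ^ p ≤ ((A ^ p) i i).re := by
  obtain ⟨U, d, hU, hU', hd0, e⟩ := exists_diag_nonneg hA
  have h1 : A i i = ((∑ j, d j * ‖U i j‖ ^ 2 : ℝ) : ℂ) := by
    have := diag_pow_entry hU hU' d 1 i
    simpa [← e] using this
  rw [h1, e, diag_pow_entry hU hU', Complex.ofReal_re, Complex.ofReal_re]
  have := Real.pow_arith_mean_le_arith_mean_pow Finset.univ (fun j => ‖U i j‖ ^ 2) d
    (fun j _ => by positivity) (row_norm hU' i) (fun j _ => hd0 j) p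
  calc _ = (∑ j, ‖U i j‖ ^ 2 * d j) ^ p := by simp only [mul_comm]
    _ ≤ _ := this
    _ = _ := by simp only [mul_comm]

theorem psd_conj {A : Matrix n n ℂ} (hA : A.PosSemidef) (U : Matrix n n ℂ) :
    (Uᴴ * A * U).PosSemidef := hA.conjTranspose_mul_mul_same U

theorem psd_diag_nonneg {A : Matrix n n ℂ} (hA : A.PosSemidef) (i : n) : 0 ≤ (A i i).re := by
  have := hA.diag_nonneg (i := i)
  exact (Complex.nonneg_iff.1 this).1

theorem sum_diag_pow_le {A : Matrix n n ℂ} (hA : A.PosSemidef) {U : Matrix n n ℂ}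
    (hU : Uᴴ * U = 1) (hU' : U * Uᴴ = 1) (p : ℕ) :
    ∑ i, ((Uᴴ * A * U) i i).re ^ p ≤ (trace (A ^ p)).re := by
  rw [← trace_conj hU', ← conj_pow hU hU', Matrix.trace, Complex.re_sum]
  exact Finset.sum_le_sum fun i _ => diag_pow_le (psd_conj hA U) p i

theorem conj_of_diag {A U : Matrix n n ℂ} {d : n → ℝ} (hU : Uᴴ * U = 1)
    (e : A = U * diagonal (fun i => (d i : ℂ)) * Uᴴ) :
    Uᴴ * A * U = diagonal fun i => (d i : ℂ) := by
  rw [e]
  calc Uᴴ * (U * diagonal (fun i => (d i : ℂ)) * Uᴴ) * U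
      = (Uᴴ * U) * diagonal (fun i => (d i : ℂ)) * (Uᴴ * U) := by simp only [Matrix.mul_assoc]
    _ = _ := by rw [hU, Matrix.one_mul, Matrix.mul_one]

theorem trace_pow_diag {A U : Matrix n n ℂ} {d : n → ℝ} (hU : Uᴴ * U = 1) (hU' : U * Uᴴ = 1)
    (e : A = U * diagonal (fun i => (d i : ℂ)) * Uᴴ) (p : ℕ) :
    (trace (A ^ p)).re = ∑ i, d i ^ p := by
  rw [← trace_conj hU', ← conj_pow hU hU', conj_of_diag hU e, diagonal_pow, trace_diagonal,
    Complex.re_sum]
  refine Finset.sum_congr rfl fun i _ => ?_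
  rw [Pi.pow_apply, ← Complex.ofReal_pow, Complex.ofReal_re]

/-- Monotonicity of `Tr A ^ p`. -/
theorem trace_pow_mono {A B : Matrix n n ℂ} (hA : A.PosSemidef) (hBA : (B - A).PosSemidef) (p : ℕ) :
    (trace (A ^ p)).re ≤ (trace (B ^ p)).re := by
  obtain ⟨U, d, hU, hU', hd0, e⟩ := exists_diag_nonneg hA
  have hB : B.PosSemidef := by
    have := hBA.add hA
    rwa [sub_add_cancel] at this
  rw [trace_pow_diag hU hU' e]
  refine le_trans (Finset.sum_le_sum fun i _ => ?_) (sum_diag_pow_le hB hU hU' p)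
  refine pow_le_pow_left₀ (hd0 i) ?_ p
  have h1 := psd_diag_nonneg (psd_conj hBA U) i
  rw [Matrix.mul_sub, Matrix.sub_mul, conj_of_diag hU e, Matrix.sub_apply, diagonal_apply_eq,
    Complex.sub_re, Complex.ofReal_re] at h1
  linarith

theorem trace_pow_comm (A B : Matrix n n ℂ) (p : ℕ) : trace ((A * B) ^ p) = trace ((B * A) ^ p) := by
  cases p with
  | zero => simp
  | succ p =>
    have h : ∀ q : ℕ, (A * B) ^ q * A = A * (B * A) ^ q := by
      intro q
      induction q with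
      | zero => simp
      | succ q ih =>
        calc (A * B) ^ (q + 1) * A = (A * B) ^ q * A * (B * A) := by
              rw [pow_succ]; simp only [Matrix.mul_assoc]
          _ = _ := by rw [ih, pow_succ]; simp only [Matrix.mul_assoc]
    rw [pow_succ, ← Matrix.mul_assoc, h, Matrix.trace_mul_comm, ← Matrix.mul_assoc, ← pow_succ']

/-- `|Tr (X Y) ^ k| ≤ Tr ((X² + Y²) / 2) ^ k` for hermitian `X` and `Y`. -/
theorem trace_XY_le {X Y : Matrix n n ℂ} (hX : X.IsHermitian) (hY : Y.IsHermitian) (k : ℕ) :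
    ‖trace ((X * Y) ^ k)‖ ≤ (trace (((1 / 2 : ℂ) • (X * X + Y * Y)) ^ k)).re := by
  obtain ⟨U, hU, hU', hT⟩ := schur_trace (X * Y)
  set l : n → ℂ := fun i => (Uᴴ * (X * Y) * U) i i with hl
  have hε : ∀ i, ∃ ε : ℂ, ‖ε‖ = 1 ∧ ε * l i = ‖l i‖ := by
    intro i
    by_cases h : l i = 0
    · exact ⟨1, by simp, by simp [h]⟩
    · have h' : (‖l i‖ : ℂ) ≠ 0 := by exact_mod_cast norm_ne_zero_iff.2 h
      refine ⟨(starRingEnd ℂ) (l i) / ‖l i‖, ?_, ?_⟩
      · rw [norm_div, Complex.norm_real, norm_norm, RCLike.norm_conj,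
          div_self (norm_ne_zero_iff.2 h)]
      · rw [div_mul_eq_mul_div, mul_comm, Complex.mul_conj, Complex.normSq_eq_norm_sq,
          div_eq_iff h']
        push_cast; ring
  choose ε hε1 hε2 using hε
  let E : Matrix n n ℂ := diagonal ε
  have hE : E * Eᴴ = 1 := by
    simp only [E, diagonal_conjTranspose, diagonal_mul_diagonal]
    rw [← diagonal_one]
    congr 1
    ext i
    simp only [Pi.star_apply, Complex.star_def, Complex.mul_conj, Complex.normSq_eq_norm_sq, hε1]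
    norm_num
  let N : Matrix n n ℂ := X * U + Y * U * E
  let N' : Matrix n n ℂ := X * U - Y * U * E
  have hNH : Nᴴ = Uᴴ * X + Eᴴ * Uᴴ * Y := by
    simp only [N, conjTranspose_add, conjTranspose_mul, hX.eq, hY.eq, Matrix.mul_assoc]
  have hNH' : N'ᴴ = Uᴴ * X - Eᴴ * Uᴴ * Y := by
    simp only [N', conjTranspose_sub, conjTranspose_mul, hX.eq, hY.eq, Matrix.mul_assoc]
  have hYY : (Y * U * E) * (Eᴴ * Uᴴ * Y) = Y * Y := by
    calc (Y * U * E) * (Eᴴ * Uᴴ * Y) = Y * (U * (E * Eᴴ) * Uᴴ) * Y := by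
          simp only [Matrix.mul_assoc]
      _ = _ := by rw [hE, Matrix.mul_one, hU', Matrix.mul_one]
  have hXX : (X * U) * (Uᴴ * X) = X * X := by
    calc (X * U) * (Uᴴ * X) = X * (U * Uᴴ) * X := by simp only [Matrix.mul_assoc]
      _ = _ := by rw [hU', Matrix.mul_one]
  have hsum : N * Nᴴ + N' * N'ᴴ = (2 : ℂ) • (X * X + Y * Y) := by
    rw [hNH, hNH']
    simp only [N, N', Matrix.add_mul, Matrix.mul_add, Matrix.sub_mul, Matrix.mul_sub, hYY, hXX,
      two_smul]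
    abel
  have hdiag : ∀ i, 4 * ‖l i‖ ≤ ((Nᴴ * N) i i).re := by
    intro i
    have e1 : l i = ∑ m, (starRingEnd ℂ) ((X * U) m i) * (Y * U) m i := by
      have : Uᴴ * (X * Y) * U = (X * U)ᴴ * (Y * U) := by
        rw [conjTranspose_mul, hX.eq]; simp only [Matrix.mul_assoc]
      simp only [hl, this, Matrix.mul_apply (M := (X * U)ᴴ), conjTranspose_apply]
      rfl
    have e2 : ((Nᴴ * N) i i).re = ∑ m, ‖(X * U) m i + ε i * (Y * U) m i‖ ^ 2 := by
      rw [Matrix.mul_apply, Complex.re_sum]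
      refine Finset.sum_congr rfl fun m _ => ?_
      have : N m i = (X * U) m i + ε i * (Y * U) m i := by
        simp only [N, E, Matrix.add_apply, mul_diagonal]; ring
      rw [conjTranspose_apply, this, Complex.star_def, mul_comm, Complex.mul_conj,
        Complex.ofReal_re, Complex.normSq_eq_norm_sq]
    have e3 : ∀ m, ‖(X * U) m i + ε i * (Y * U) m i‖ ^ 2 = ‖(X * U) m i‖ ^ 2 + ‖(Y * U) m i‖ ^ 2 +
        2 * (ε i * ((starRingEnd ℂ) ((X * U) m i) * (Y * U) m i)).re := by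
      intro m
      rw [← Complex.normSq_eq_norm_sq, Complex.normSq_add, Complex.normSq_mul,
        Complex.normSq_eq_norm_sq (ε i), hε1, Complex.normSq_eq_norm_sq, Complex.normSq_eq_norm_sq]
      have : ((X * U) m i * (starRingEnd ℂ) (ε i * (Y * U) m i)).re =
          (ε i * ((starRingEnd ℂ) ((X * U) m i) * (Y * U) m i)).re := by
        rw [← Complex.conj_re]
        congr 1
        simp only [map_mul, Complex.conj_conj]
        ring
      rw [this]; ring
    have e4 : ((Nᴴ * N) i i).re = ∑ m, ‖(X * U) m i‖ ^ 2 + ∑ m, ‖(Y * U) m i‖ ^ 2 + 2 * ‖l i‖ := by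
      rw [e2, Finset.sum_congr rfl fun m _ => e3 m, Finset.sum_add_distrib, Finset.sum_add_distrib,
        ← Finset.mul_sum, ← Complex.re_sum, ← Finset.mul_sum, ← e1, hε2, Complex.ofReal_re]
    have e5 : ‖l i‖ ≤ ∑ m, ‖(X * U) m i‖ * ‖(Y * U) m i‖ := by
      rw [e1]
      refine (norm_sum_le _ _).trans (le_of_eq (Finset.sum_congr rfl fun m _ => ?_))
      rw [norm_mul, RCLike.norm_conj]
    have e6 : 2 * ∑ m, ‖(X * U) m i‖ * ‖(Y * U) m i‖ ≤
        ∑ m, ‖(X * U) m i‖ ^ 2 + ∑ m, ‖(Y * U) m i‖ ^ 2 := by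
      rw [Finset.mul_sum, ← Finset.sum_add_distrib]
      refine Finset.sum_le_sum fun m _ => ?_
      nlinarith [sq_nonneg (‖(X * U) m i‖ - ‖(Y * U) m i‖)]
    rw [e4]; linarith
  have hNN : (Nᴴ * N).PosSemidef := posSemidef_conjTranspose_mul_self N
  have hNN' : (N * Nᴴ).PosSemidef := posSemidef_self_mul_conjTranspose N
  have k1 : ∑ i, (4 * ‖l i‖) ^ k ≤ (trace ((N * Nᴴ) ^ k)).re := by
    rw [trace_pow_comm]
    refine le_trans (Finset.sum_le_sum fun i _ => pow_le_pow_left₀ (by positivity) (hdiag i) k) ?_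
    have := sum_diag_pow_le hNN (U := 1) (by simp) (by simp) k
    simpa using this
  have k2 : (trace ((N * Nᴴ) ^ k)).re ≤ (trace (((2 : ℂ) • (X * X + Y * Y)) ^ k)).re := by
    refine trace_pow_mono hNN' ?_ k
    rw [← hsum, add_sub_cancel_left]
    exact posSemidef_self_mul_conjTranspose N'
  have k3 : (2 : ℂ) • (X * X + Y * Y) = (4 : ℂ) • ((1 / 2 : ℂ) • (X * X + Y * Y)) := by
    rw [smul_smul]; norm_num
  rw [k3, smul_pow, trace_smul, smul_eq_mul] at k2
  have k4 : ((4 : ℂ) ^ k * trace (((1 / 2 : ℂ) • (X * X + Y * Y)) ^ k)).re =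
      4 ^ k * (trace (((1 / 2 : ℂ) • (X * X + Y * Y)) ^ k)).re := by
    have : ((4 : ℂ) ^ k) = ((4 ^ k : ℝ) : ℂ) := by push_cast; rfl
    rw [this, Complex.re_ofReal_mul]
  rw [k4] at k2
  have k5 : ∑ i, (4 * ‖l i‖) ^ k = 4 ^ k * ∑ i, ‖l i‖ ^ k := by
    rw [Finset.mul_sum]; exact Finset.sum_congr rfl fun i _ => mul_pow _ _ _
  rw [hT]
  refine (norm_sum_le _ _).trans ?_
  have k6 : (0 : ℝ) < 4 ^ k := by positivity
  have k7 : 4 ^ k * ∑ i, ‖l i‖ ^ k ≤ 4 ^ k * (trace (((1 / 2 : ℂ) • (X * X + Y * Y)) ^ k)).re :=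
    k5 ▸ k1.trans k2
  have := le_of_mul_le_mul_left k7 k6
  simpa only [norm_pow] using this

end Pool.Agent.H793.ZI
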