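import Mathlib
import Pool.Agent.H793.ZI.Mat

set_option autoImplicit false

namespace Pool.Agent.H793.ZI

open Matrix Finset
open scoped ComplexOrder Matrix

variable {n : Type*} [Fintype n] [DecidableEq n]

theorem trace_mul_nonneg {P Q : Matrix n n ℂ} (hP : P.PosSemidef) (hQ : Q.PosSemidef) :
    0 ≤ (trace (P * Q)).re := by
  obtain ⟨U, d, hU, hU', hd0, e⟩ := exists_diag_nonneg hP
  have h1 : trace (P * Q) = ∑ i, (d i : ℂ) * (Uᴴ * Q * U) i i := by
    rw [e]
    calc trace (U * diagonal (fun i => (d i : ℂ)) * Uᴴ * Q)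
        = trace (U * (diagonal (fun i => (d i : ℂ)) * (Uᴴ * Q))) := by
          simp only [Matrix.mul_assoc]
      _ = trace (diagonal (fun i => (d i : ℂ)) * (Uᴴ * Q * U)) := by
          rw [Matrix.trace_mul_comm]; simp only [Matrix.mul_assoc]
      _ = _ := by
          rw [Matrix.trace]
          simp only [diag_apply, diagonal_mul]
  rw [h1, Complex.re_sum]
  refine Finset.sum_nonneg fun i _ => ?_
  rw [Complex.re_ofReal_mul]
  exact mul_nonneg (hd0 i) (psd_diag_nonneg (psd_conj hQ U) i)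

theorem trace_four_nonneg {A B D : Matrix n n ℂ} (hA : A.PosSemidef) (hB : B.PosSemidef)
    (hD : D.IsHermitian) (i j : ℕ) : 0 ≤ (trace (A ^ i * D * B ^ j * D)).re := by
  have h1 : (D * B ^ j * D).PosSemidef := by
    have := psd_conj (hB.pow j) D
    rwa [hD.eq] at this
  have h2 := trace_mul_nonneg (hA.pow i) h1
  have h3 : A ^ i * D * B ^ j * D = A ^ i * (D * B ^ j * D) := by simp only [Matrix.mul_assoc]
  rw [h3]; exact h2

/-- The telescoping quantity is nonnegative. -/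
theorem tele_nonneg {A B D : Matrix n n ℂ} (hA : A.PosSemidef) (hB : B.PosSemidef)
    (hD : D.IsHermitian) (hAB : A - B = (2 : ℂ) • D) :
    ∀ p j : ℕ, 0 ≤ (trace ((A ^ p - B ^ p) * B ^ j * D)).re ∧
      2 * (trace (A ^ p * D * B ^ j * D)).re ≤ (trace ((A ^ (p + 1) - B ^ (p + 1)) * B ^ j * D)).re := by
  have step : ∀ p j : ℕ, (trace ((A ^ (p + 1) - B ^ (p + 1)) * B ^ j * D)).re =
      2 * (trace (A ^ p * D * B ^ j * D)).re + (trace ((A ^ p - B ^ p) * B ^ (j + 1) * D)).re := by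
    intro p j
    have e : (A ^ (p + 1) - B ^ (p + 1)) * B ^ j * D =
        (2 : ℂ) • (A ^ p * D * B ^ j * D) + (A ^ p - B ^ p) * B ^ (j + 1) * D := by
      have e1 : A ^ (p + 1) - B ^ (p + 1) = A ^ p * (A - B) + (A ^ p - B ^ p) * B := by
        rw [Matrix.mul_sub, Matrix.sub_mul, pow_succ, pow_succ]; abel
      rw [e1, hAB, pow_succ' B j]
      simp only [Matrix.add_mul, Matrix.mul_smul, Matrix.smul_mul, Matrix.mul_assoc]
    rw [e, trace_add, trace_smul, Complex.add_re, smul_eq_mul]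
    congr 1
    simp
  intro p
  induction p with
  | zero =>
    intro j
    refine ⟨by simp, ?_⟩
    rw [step 0 j]
    simp
  | succ p ih =>
    intro j
    have h0 : 0 ≤ (trace ((A ^ (p + 1) - B ^ (p + 1)) * B ^ j * D)).re := by
      rw [step p j]
      have := trace_four_nonneg hA hB hD p j
      have := (ih (j + 1)).1
      linarith
    refine ⟨h0, ?_⟩
    rw [step (p + 1) j]
    have h1 : 0 ≤ (trace ((A ^ (p + 1) - B ^ (p + 1)) * B ^ (j + 1) * D)).re := by
      rw [step p (j + 1)]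
      have := trace_four_nonneg hA hB hD p (j + 1)
      have := (ih (j + 1 + 1)).1
      linarith
    linarith

theorem mid_le {x y : ℝ} (hx : 0 ≤ x) (hy : 0 ≤ y) (p : ℕ) :
    2 * ((x + y) / 2) ^ p ≤ x ^ p + y ^ p := by
  have := Real.pow_arith_mean_le_arith_mean_pow (Finset.univ : Finset (Fin 2))
    (fun _ => (1 / 2 : ℝ)) ![x, y] (fun _ _ => by norm_num) (by simp) (by
      intro i _; fin_cases i <;> simpa) p
  simp only [Fin.sum_univ_two, Matrix.cons_val_zero, Matrix.cons_val_one] at this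
  have e : (1 / 2 * x + 1 / 2 * y) = (x + y) / 2 := by ring
  rw [e] at this
  linarith

theorem trace_diag_mul {U : Matrix n n ℂ} (h : n → ℝ) (M : Matrix n n ℂ) :
    (trace (M * (U * diagonal (fun i => (h i : ℂ)) * Uᴴ))).re =
      ∑ i, h i * ((Uᴴ * M * U) i i).re := by
  have : trace (M * (U * diagonal (fun i => (h i : ℂ)) * Uᴴ)) =
      trace (diagonal (fun i => (h i : ℂ)) * (Uᴴ * M * U)) := by
    calc trace (M * (U * diagonal (fun i => (h i : ℂ)) * Uᴴ))
        = trace (((M * U) * diagonal (fun i => (h i : ℂ))) * Uᴴ) := by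
          simp only [Matrix.mul_assoc]
      _ = trace (Uᴴ * ((M * U) * diagonal (fun i => (h i : ℂ)))) := Matrix.trace_mul_comm _ _
      _ = trace ((Uᴴ * M * U) * diagonal (fun i => (h i : ℂ))) := by
          simp only [Matrix.mul_assoc]
      _ = _ := Matrix.trace_mul_comm _ _
  rw [this, Matrix.trace, Complex.re_sum]
  simp only [diag_apply, diagonal_mul, Complex.re_ofReal_mul]

/-- Convexity step. -/
theorem conv_step {A B H D : Matrix n n ℂ} (hA : A.PosSemidef) (hB : B.PosSemidef)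
    (hHp : H.PosSemidef) (hAe : A = H + D) (hBe : B = H - D) (p : ℕ) :
    (trace ((A ^ p - B ^ p) * D)).re ≤
      (trace (A ^ (p + 1))).re + (trace (B ^ (p + 1))).re - 2 * (trace (H ^ (p + 1))).re := by
  obtain ⟨U, h, hU, hU', h0, e⟩ := exists_diag_nonneg hHp
  have e1 : (trace (A ^ (p + 1))).re + (trace (B ^ (p + 1))).re =
      (trace ((A ^ p + B ^ p) * H)).re + (trace ((A ^ p - B ^ p) * D)).re := by
    rw [← Complex.add_re, ← Complex.add_re, ← trace_add, ← trace_add]
    congr 2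
    rw [pow_succ, pow_succ]
    conv_lhs => rw [show A ^ p * A = A ^ p * (H + D) by rw [← hAe],
      show B ^ p * B = B ^ p * (H - D) by rw [← hBe]]
    simp only [Matrix.mul_add, Matrix.mul_sub, Matrix.add_mul, Matrix.sub_mul]
    abel
  have e2 : 2 * (trace (H ^ (p + 1))).re ≤ (trace ((A ^ p + B ^ p) * H)).re := by
    rw [trace_pow_diag hU hU' e (p + 1)]
    have : (trace ((A ^ p + B ^ p) * H)).re = ∑ i, h i * ((Uᴴ * (A ^ p + B ^ p) * U) i i).re := by
      conv_lhs => rw [e]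
      exact trace_diag_mul h _
    rw [this, Finset.mul_sum]
    refine Finset.sum_le_sum fun i _ => ?_
    have a1 : ((Uᴴ * (A ^ p + B ^ p) * U) i i).re =
        (((Uᴴ * A * U) ^ p) i i).re + (((Uᴴ * B * U) ^ p) i i).re := by
      rw [Matrix.mul_add, Matrix.add_mul, Matrix.add_apply, Complex.add_re, conj_pow hU hU',
        conj_pow hU hU']
    have a2 := diag_pow_le (psd_conj hA U) p i
    have a3 := diag_pow_le (psd_conj hB U) p i
    have a4 := mid_le (psd_diag_nonneg (psd_conj hA U) i) (psd_diag_nonneg (psd_conj hB U) i) p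
    have a5 : (((Uᴴ * A * U) i i).re + ((Uᴴ * B * U) i i).re) / 2 = h i := by
      have b1 : Uᴴ * A * U + Uᴴ * B * U = (2 : ℂ) • diagonal (fun i => (h i : ℂ)) := by
        rw [← conj_of_diag hU e, ← Matrix.add_mul, ← Matrix.mul_add]
        have : A + B = (2 : ℂ) • H := by rw [hAe, hBe, two_smul]; abel
        rw [this, Matrix.mul_smul, Matrix.smul_mul]
      have b2 := congrFun (congrFun b1 i) i
      rw [Matrix.add_apply, Matrix.smul_apply, diagonal_apply_eq] at b2
      have b3 := congrArg Complex.re b2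
      rw [Complex.add_re] at b3
      simp at b3
      linarith
    rw [a5] at a4
    rw [a1]
    have : 2 * h i ^ (p + 1) = h i * (2 * h i ^ p) := by ring
    rw [this]
    exact mul_le_mul_of_nonneg_left (by linarith) (h0 i)
  linarith

theorem abs_pow_le {x y d : ℝ} (hx : 0 ≤ x) (hy : 0 ≤ y) (hd : x - y = 2 * d) (p : ℕ) :
    |d| ^ (p + 2) ≤ d ^ 2 * x ^ p + d ^ 2 * y ^ p := by
  have h2 : |d| ^ (p + 2) = d ^ 2 * |d| ^ p := by
    rw [pow_add, sq_abs, mul_comm]
  rw [h2, ← mul_add]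
  refine mul_le_mul_of_nonneg_left ?_ (sq_nonneg d)
  rcases le_total 0 d with h | h
  · have : |d| ≤ x := by rw [abs_of_nonneg h]; linarith
    have := pow_le_pow_left₀ (abs_nonneg d) this p
    have := pow_nonneg hy p
    linarith
  · have : |d| ≤ y := by rw [abs_of_nonpos h]; linarith
    have := pow_le_pow_left₀ (abs_nonneg d) this p
    have := pow_nonneg hx p
    linarith

/-- The square of the norm of a column. -/
noncomputable def colsq (D : Matrix n n ℂ) (i : n) : ℝ := ∑ j, ‖D j i‖ ^ 2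

theorem colsq_nonneg (D : Matrix n n ℂ) (i : n) : 0 ≤ colsq D i :=
  Finset.sum_nonneg fun _ _ => by positivity

theorem colsq_eq {D U : Matrix n n ℂ} {d : n → ℝ} (hU : Uᴴ * U = 1) (hU' : U * Uᴴ = 1)
    (e : D = U * diagonal (fun i => (d i : ℂ)) * Uᴴ) (hD : D.IsHermitian) (i : n) :
    colsq D i = ∑ j, d j ^ 2 * ‖U i j‖ ^ 2 := by
  have h1 : (D ^ 2) i i = ((colsq D i : ℝ) : ℂ) := by
    rw [sq, Matrix.mul_apply]
    conv_lhs => enter [2, j]; rw [show D i j = star (D j i) from by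
      have := congrFun (congrFun hD.eq i) j
      rw [← this, conjTranspose_apply]]
    rw [colsq]
    push_cast
    refine Finset.sum_congr rfl fun j _ => ?_
    rw [Complex.star_def, mul_comm, Complex.mul_conj, Complex.normSq_eq_norm_sq]
    push_cast; rfl
  have h2 := diag_pow_entry hU hU' d 2 i
  rw [← e, h1] at h2
  exact_mod_cast h2

theorem sum_colsq_le {D : Matrix n n ℂ} (hD : D.IsHermitian) {U : Matrix n n ℂ} {d : n → ℝ}
    (hU : Uᴴ * U = 1) (hU' : U * Uᴴ = 1)
    (e : D = U * diagonal (fun i => (d i : ℂ)) * Uᴴ) {k : ℕ} (hk : 2 ≤ k) :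
    ∑ i, (Real.sqrt (colsq D i)) ^ k ≤ ∑ l, |d l| ^ k := by
  have key : ∀ i, (Real.sqrt (colsq D i)) ^ k ≤ ∑ l, |d l| ^ k * ‖U i l‖ ^ 2 := by
    intro i
    have h1 := Real.rpow_arith_mean_le_arith_mean_rpow Finset.univ (fun j => ‖U i j‖ ^ 2)
      (fun j => d j ^ 2) (fun j _ => by positivity) (row_norm hU' i) (fun j _ => by positivity)
      (p := (k : ℝ) / 2) (by
        rw [le_div_iff₀ (by norm_num)]
        have : (2 : ℝ) ≤ k := by exact_mod_cast hk
        linarith)
    have h2 : (Real.sqrt (colsq D i)) ^ k = (∑ j, ‖U i j‖ ^ 2 * d j ^ 2) ^ ((k : ℝ) / 2) := by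
      have : ∑ j, ‖U i j‖ ^ 2 * d j ^ 2 = colsq D i := by
        rw [colsq_eq hU hU' e hD]
        exact Finset.sum_congr rfl fun j _ => mul_comm _ _
      rw [this, Real.sqrt_eq_rpow, ← Real.rpow_natCast, ← Real.rpow_mul (colsq_nonneg D i)]
      congr 1; ring
    rw [h2]
    refine h1.trans (le_of_eq (Finset.sum_congr rfl fun l _ => ?_))
    have : (d l ^ 2) ^ ((k : ℝ) / 2) = |d l| ^ k := by
      rw [← sq_abs, ← Real.rpow_natCast (|d l|) 2, ← Real.rpow_mul (abs_nonneg _),
        ← Real.rpow_natCast]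
      congr 1
      push_cast; ring
    rw [this, mul_comm]
  calc ∑ i, (Real.sqrt (colsq D i)) ^ k ≤ ∑ i, ∑ l, |d l| ^ k * ‖U i l‖ ^ 2 :=
        Finset.sum_le_sum fun i _ => key i
    _ = ∑ l, ∑ i, |d l| ^ k * ‖U i l‖ ^ 2 := Finset.sum_comm
    _ = ∑ l, |d l| ^ k := by
        refine Finset.sum_congr rfl fun l _ => ?_
        rw [← Finset.mul_sum, col_norm hU l, mul_one]

/-- **Quantitative convexity** of `A ↦ Tr A ^ k` on positive semidefinite matrices. -/
theorem quant_conv {A B H D : Matrix n n ℂ} (hA : A.PosSemidef) (hB : B.PosSemidef)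
    (hHp : H.PosSemidef) (hD : D.IsHermitian) (hAe : A = H + D) (hBe : B = H - D) {k : ℕ}
    (hk : 2 ≤ k) :
    ∑ i, (Real.sqrt (colsq D i)) ^ k ≤
      (trace (A ^ k)).re + (trace (B ^ k)).re - 2 * (trace (H ^ k)).re := by
  obtain ⟨p, rfl⟩ : ∃ p, k = p + 1 + 1 := ⟨k - 2, by omega⟩
  obtain ⟨U, d, hU, hU', e⟩ := exists_diag hD
  refine (sum_colsq_le hD hU hU' e hk).trans ?_
  refine le_trans ?_ (conv_step hA hB hHp hAe hBe (p + 1))
  have hD2 : D ^ 2 = U * diagonal (fun i => ((d i ^ 2 : ℝ) : ℂ)) * Uᴴ := by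
    have h3 : (fun i => (d i : ℂ)) ^ 2 = fun i => ((d i ^ 2 : ℝ) : ℂ) := by
      funext i
      simp
    rw [← h3, ← diagonal_pow, ← pow_conj hU hU', ← e]
  have hAB : A - B = (2 : ℂ) • D := by rw [hAe, hBe, two_smul]; abel
  have hBA : B - A = (2 : ℂ) • (-D) := by rw [hAe, hBe, two_smul]; abel
  have t1 := (tele_nonneg hA hB hD hAB p 0).2
  have t2 := (tele_nonneg hB hA hD.neg hBA p 0).2
  have e1 : (trace (A ^ p * D * B ^ 0 * D)).re = ∑ l, d l ^ 2 * ((Uᴴ * A ^ p * U) l l).re := by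
    rw [pow_zero, Matrix.mul_one, Matrix.mul_assoc, ← sq]
    rw [hD2]
    exact trace_diag_mul _ _
  have e2 : (trace (B ^ p * -D * A ^ 0 * -D)).re = ∑ l, d l ^ 2 * ((Uᴴ * B ^ p * U) l l).re := by
    rw [pow_zero, Matrix.mul_one, Matrix.mul_assoc, neg_mul_neg, ← sq]
    rw [hD2]
    exact trace_diag_mul _ _
  have e3 : trace ((B ^ (p + 1) - A ^ (p + 1)) * A ^ 0 * -D) =
      trace ((A ^ (p + 1) - B ^ (p + 1)) * D) := by
    congr 1
    rw [pow_zero, Matrix.mul_one, Matrix.mul_neg, ← Matrix.neg_mul, neg_sub]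
  rw [e1, pow_zero, Matrix.mul_one] at t1
  rw [e2, e3] at t2
  have t3 : ∑ l, |d l| ^ (p + 2) ≤ ∑ l, d l ^ 2 * ((Uᴴ * A ^ p * U) l l).re +
      ∑ l, d l ^ 2 * ((Uᴴ * B ^ p * U) l l).re := by
    rw [← Finset.sum_add_distrib]
    refine Finset.sum_le_sum fun l _ => ?_
    have a2 := diag_pow_le (psd_conj hA U) p l
    have a3 := diag_pow_le (psd_conj hB U) p l
    rw [conj_pow hU hU'] at a2 a3
    have a5 : ((Uᴴ * A * U) l l).re - ((Uᴴ * B * U) l l).re = 2 * d l := by
      have b1 : Uᴴ * A * U - Uᴴ * B * U = (2 : ℂ) • diagonal (fun i => (d i : ℂ)) := by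
        rw [← conj_of_diag hU e, ← Matrix.sub_mul, ← Matrix.mul_sub, hAB, Matrix.mul_smul,
          Matrix.smul_mul]
      have b2 := congrFun (congrFun b1 l) l
      rw [Matrix.sub_apply, Matrix.smul_apply, diagonal_apply_eq] at b2
      have b3 := congrArg Complex.re b2
      rw [Complex.sub_re] at b3
      simp at b3
      linarith
    have a6 := abs_pow_le (psd_diag_nonneg (psd_conj hA U) l) (psd_diag_nonneg (psd_conj hB U) l)
      a5 p
    have a7 := mul_le_mul_of_nonneg_left a2 (sq_nonneg (d l))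
    have a8 := mul_le_mul_of_nonneg_left a3 (sq_nonneg (d l))
    linarith
  have : ∑ l, |d l| ^ (p + 1 + 1) = ∑ l, |d l| ^ (p + 2) := rfl
  rw [this]
  linarith

/-- The final matrix inequality. -/
theorem main_matrix {X Y : Matrix n n ℂ} (hX : X.IsHermitian) (hY : Y.IsHermitian) {k : ℕ}
    (hk : 2 ≤ k) (htr : trace ((Y * Y) ^ k) = trace ((X * X) ^ k)) :
    1 / 2 * ∑ i, (Real.sqrt (colsq ((1 / 2 : ℂ) • (X * X - Y * Y)) i)) ^ k ≤
      (trace ((X * X) ^ k)).re - ‖trace ((X * Y) ^ k)‖ := by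
  have hA : (X * X).PosSemidef := by
    have := posSemidef_conjTranspose_mul_self X
    rwa [hX.eq] at this
  have hB : (Y * Y).PosSemidef := by
    have := posSemidef_conjTranspose_mul_self Y
    rwa [hY.eq] at this
  have hH : ((1 / 2 : ℂ) • (X * X + Y * Y)).PosSemidef := by
    refine (hA.add hB).smul ?_
    have : (1 / 2 : ℂ) = ((1 / 2 : ℝ) : ℂ) := by push_cast; rfl
    rw [this]
    exact Complex.zero_le_real.2 (by norm_num)
  have hD : ((1 / 2 : ℂ) • (X * X - Y * Y)).IsHermitian := by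
    have h1 := (hA.isHermitian.sub hB.isHermitian)
    unfold Matrix.IsHermitian
    rw [conjTranspose_smul, h1.eq]
    simp
  have h1 := quant_conv hA hB hH hD (by rw [← smul_add]; simp [← two_smul ℂ])
    (by
      rw [← smul_sub]
      have : X * X + Y * Y - (X * X - Y * Y) = (2 : ℂ) • (Y * Y) := by rw [two_smul]; abel
      rw [this, smul_smul]; norm_num) hk
  have h2 := trace_XY_le hX hY k
  rw [htr] at h1
  linarith

end Pool.Agent.H793.ZI
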