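import Mathlib
import Pool.Agent.H793.ZI.Conv

set_option autoImplicit false

namespace Pool.Agent.H793.ZI

open Matrix Finset
open scoped ComplexOrder Matrix

/-- Integers in `[-M, M]`. -/
abbrev Idx (M : ℕ) : Type := {n : ℤ // n ∈ Finset.Icc (-(M : ℤ)) M}

/-- Partial sums. -/
def ps {p : ℕ} (j : Fin p → ℤ) (i : Fin p) : ℤ := ∑ l, if l < i then j l else 0

theorem ps_cons_succ {p : ℕ} (x : ℤ) (j : Fin p → ℤ) (i : Fin p) :
    ps (Fin.cons x j : Fin (p + 1) → ℤ) i.succ = x + ps j i := by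
  unfold ps
  rw [Fin.sum_univ_succ]
  simp [Fin.succ_lt_succ_iff]

theorem ps_zero {p : ℕ} (j : Fin (p + 1) → ℤ) : ps j 0 = 0 := by
  unfold ps
  simp

/-- Weighted walks. -/
noncomputable def wk (F α : ℤ → ℂ) (M d p : ℕ) (a b : ℤ) : ℂ :=
  ∑ j : Fin p → Idx d, if a + ∑ i, (j i : ℤ) = b then
    ∏ i, ((if a + ps (fun l => (j l : ℤ)) i ∈ Finset.Icc (-(M : ℤ)) M then
      F (a + ps (fun l => (j l : ℤ)) i) else 0) * α (j i)) else 0

theorem wk_zero (F α : ℤ → ℂ) (M d : ℕ) (a b : ℤ) : wk F α M d 0 a b = if a = b then 1 else 0 := by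
  unfold wk
  simp

theorem wk_succ (F α : ℤ → ℂ) (M d p : ℕ) (a b : ℤ) :
    wk F α M d (p + 1) a b = ∑ x : Idx d,
      (if a ∈ Finset.Icc (-(M : ℤ)) M then F a else 0) * α x * wk F α M d p (a + x) b := by
  unfold wk
  rw [← Equiv.sum_comp (Fin.consEquiv (fun _ => Idx d)), Fintype.sum_prod_type]
  refine Finset.sum_congr rfl fun x _ => ?_
  rw [Finset.mul_sum]
  refine Finset.sum_congr rfl fun j _ => ?_
  have hc : (fun l => (((Fin.consEquiv (fun _ => Idx d)) (x, j) : Fin (p + 1) → Idx d) l : ℤ)) =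
      (Fin.cons (x : ℤ) (fun l => (j l : ℤ)) : Fin (p + 1) → ℤ) := by
    funext l
    refine Fin.cases ?_ (fun l => ?_) l <;> rfl
  have h0 : ((Fin.consEquiv (fun _ => Idx d)) (x, j) : Fin (p + 1) → Idx d) 0 = x := rfl
  have hs : ∀ i : Fin p, ((Fin.consEquiv (fun _ => Idx d)) (x, j) : Fin (p + 1) → Idx d) i.succ =
      j i := fun i => rfl
  rw [Fin.sum_univ_succ, Fin.prod_univ_succ, hc]
  simp only [h0, hs, ps_zero, ps_cons_succ, add_zero, add_assoc, mul_ite, mul_zero]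

theorem wk_out (F α : ℤ → ℂ) (M d p : ℕ) (a b : ℤ) (ha : a ∉ Finset.Icc (-(M : ℤ)) M)
    (hb : b ∈ Finset.Icc (-(M : ℤ)) M) : wk F α M d p a b = 0 := by
  cases p with
  | zero =>
    rw [wk_zero, if_neg]
    rintro rfl
    exact ha hb
  | succ p =>
    rw [wk_succ]
    simp [ha]

theorem sum_shift {M d : ℕ} (G : ℤ → ℂ) (α : ℤ → ℂ) (hα : ∀ n, n ∉ Finset.Icc (-(d : ℤ)) d → α n = 0)
    (hG : ∀ n, n ∉ Finset.Icc (-(M : ℤ)) M → G n = 0) (a : ℤ) :
    ∑ c : Idx M, α (c - a) * G c = ∑ x : Idx d, α x * G (a + x) := by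
  have h1 : ∑ c : Idx M, α (c - a) * G c = ∑' c : ℤ, α (c - a) * G c := by
    rw [tsum_eq_sum (s := Finset.Icc (-(M : ℤ)) M)]
    · exact Finset.sum_coe_sort (Finset.Icc (-(M : ℤ)) M) (fun c => α (c - a) * G c)
    · intro b hb
      rw [hG b hb, mul_zero]
  have h2 : ∑ x : Idx d, α x * G (a + x) = ∑' x : ℤ, α x * G (a + x) := by
    rw [tsum_eq_sum (s := Finset.Icc (-(d : ℤ)) d)]
    · exact Finset.sum_coe_sort (Finset.Icc (-(d : ℤ)) d) (fun x => α x * G (a + x))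
    · intro b hb
      rw [hα b hb, zero_mul]
  rw [h1, h2, ← (Equiv.addLeft a).tsum_eq]
  refine tsum_congr fun x => ?_
  simp

theorem mat_pow (F α : ℤ → ℂ) (M d : ℕ) (hα : ∀ n, n ∉ Finset.Icc (-(d : ℤ)) d → α n = 0) (p : ℕ)
    (a b : Idx M) :
    ((Matrix.of fun m n : Idx M => F m * α (n - m)) ^ p) a b = wk F α M d p a b := by
  induction p generalizing a with
  | zero =>
    rw [pow_zero, wk_zero, Matrix.one_apply]
    simp only [Subtype.ext_iff]
  | succ p ih =>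
    rw [pow_succ', Matrix.mul_apply, wk_succ, if_pos a.2]
    simp only [ih, Matrix.of_apply, mul_assoc]
    rw [← Finset.mul_sum, ← Finset.mul_sum]
    congr 1
    exact sum_shift (fun c => wk F α M d p c b) α hα (fun n hn => wk_out F α M d p n b hn b.2) a

theorem trace_walk (F α : ℤ → ℂ) (M d : ℕ) (hα : ∀ n, n ∉ Finset.Icc (-(d : ℤ)) d → α n = 0)
    (p : ℕ) :
    trace ((Matrix.of fun m n : Idx M => F m * α (n - m)) ^ p) =
      ∑ j : Fin p → Idx d, if ∑ i, (j i : ℤ) = 0 then (∏ i, α (j i)) *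
        ∑ a : Idx M, ∏ i, (if (a : ℤ) + ps (fun l => (j l : ℤ)) i ∈ Finset.Icc (-(M : ℤ)) M then
      F (a + ps (fun l => (j l : ℤ)) i) else 0) else 0 := by
  rw [Matrix.trace]
  simp only [diag_apply, mat_pow F α M d hα, wk]
  rw [Finset.sum_comm]
  refine Finset.sum_congr rfl fun j _ => ?_
  by_cases h : ∑ i, (j i : ℤ) = 0
  · rw [if_pos h, Finset.mul_sum]
    refine Finset.sum_congr rfl fun a _ => ?_
    rw [if_pos (by rw [h, add_zero]), Finset.prod_mul_distrib, mul_comm]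
  · rw [if_neg h]
    refine Finset.sum_eq_zero fun a _ => ?_
    rw [if_neg]
    intro h'
    exact h (by linarith)

end Pool.Agent.H793.ZI
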