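import Mathlib
import Pool.Agent.H793.ZI.Walk

set_option autoImplicit false

namespace Pool.Agent.H793.ZI

open Matrix Finset
open scoped ComplexOrder Matrix

/-- The polynomial attached to a tuple. -/
def fpol {K : ℕ} (j : Fin K → ℤ) (n : ℤ) : ℤ := ∏ i, (n + ps j i)

theorem ps_sub_le {K : ℕ} (j : Fin K → ℤ) (i l : Fin K) : ps j l - ps j i ≤ ∑ m, |j m| := by
  unfold ps
  rw [← Finset.sum_sub_distrib]
  refine Finset.sum_le_sum fun m _ => ?_
  have h1 := le_abs_self (j m)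
  have h2 := neg_abs_le (j m)
  have h3 := abs_nonneg (j m)
  split_ifs <;> linarith

theorem ps_abs_le {K : ℕ} (j : Fin K → ℤ) (i : Fin K) : |ps j i| ≤ ∑ m, |j m| := by
  unfold ps
  refine (Finset.abs_sum_le_sum_abs _ _).trans (Finset.sum_le_sum fun m _ => ?_)
  split_ifs
  · exact le_rfl
  · simp

theorem prod_nonneg_of_nonpos {K : ℕ} (hK : Even K) (g : Fin K → ℤ) (h : ∀ i, g i ≤ 0) :
    0 ≤ ∏ i, g i := by
  have : ∏ i, g i = ∏ i, (-g i) := by
    rw [Finset.prod_neg]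
    simp [hK.neg_one_pow]
  rw [this]
  exact Finset.prod_nonneg fun i _ => by have := h i; linarith

theorem bound_of_ne {K : ℕ} (hK : Even K) (j : Fin K → ℤ) (n : ℤ)
    (h : |fpol j n| - fpol j n ≠ 0) (l : Fin K) : |n + ps j l| ≤ ∑ m, |j m| := by
  have hneg : fpol j n < 0 := by
    by_contra hc
    rw [abs_of_nonneg (not_lt.1 hc), sub_self] at h
    exact h rfl
  have h1 : ∃ i, n + ps j i < 0 := by
    by_contra hc
    push Not at hc
    exact absurd (Finset.prod_nonneg fun i (_ : i ∈ univ) => hc i) (not_le.2 hneg)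
  have h2 : ∃ i, 0 < n + ps j i := by
    by_contra hc
    push Not at hc
    exact absurd (prod_nonneg_of_nonpos hK _ hc) (not_le.2 hneg)
  obtain ⟨i, hi⟩ := h1
  obtain ⟨i', hi'⟩ := h2
  have e1 := ps_sub_le j i l
  have e2 := ps_sub_le j l i'
  rw [abs_le]
  constructor <;> linarith

theorem fin_supp {K : ℕ} (hK : Even K) (hK0 : 0 < K) (j : Fin K → ℤ) :
    (Function.support fun n : ℤ => |fpol j n| - fpol j n) ⊆
      (Finset.Icc (-∑ m, |j m|) (∑ m, |j m|) : Finset ℤ) := by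
  intro n hn
  obtain ⟨p, rfl⟩ : ∃ p, K = p + 1 := ⟨K - 1, by omega⟩
  have := bound_of_ne hK j n hn 0
  rw [ps_zero, add_zero, abs_le] at this
  simpa using this

/-- The coefficient attached to a tuple. -/
noncomputable def Nc {K : ℕ} (j : Fin K → ℤ) : ℤ := ∑ᶠ n : ℤ, (|fpol j n| - fpol j n)

theorem Nc_eq {K : ℕ} (hK : Even K) (hK0 : 0 < K) (j : Fin K → ℤ) (M : ℕ)
    (hM : ∑ m, |j m| ≤ M) :
    Nc j = ∑ n ∈ Finset.Icc (-(M : ℤ)) M, (|fpol j n| - fpol j n) := by
  unfold Nc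
  refine finsum_eq_sum_of_support_subset _ ((fin_supp hK hK0 j).trans ?_)
  intro n hn
  simp only [Finset.coe_Icc, Set.mem_Icc] at hn ⊢
  constructor <;> linarith [hn.1, hn.2]

/-- The abstract zeta invariant of a finitely supported sequence. -/
noncomputable def Zf (K : ℕ) (α : ℤ → ℂ) (d : ℕ) : ℂ :=
  ∑ j : Fin K → Idx d, if ∑ i, (j i : ℤ) = 0 then
    (Nc (fun i => (j i : ℤ)) : ℂ) * ∏ i, α (j i) else 0

theorem sum_abs_le {K d : ℕ} (j : Fin K → Idx d) : ∑ m, |(j m : ℤ)| ≤ ((K * d : ℕ) : ℤ) := by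
  have : ∀ m, |(j m : ℤ)| ≤ d := by
    intro m
    have := Finset.mem_Icc.1 (j m).2
    rw [abs_le]
    exact this
  calc ∑ m, |(j m : ℤ)| ≤ ∑ _m : Fin K, (d : ℤ) := Finset.sum_le_sum fun m _ => this m
    _ = _ := by simp

theorem Zf_eq {K : ℕ} (hK : Even K) (hK0 : 0 < K) (α : ℤ → ℂ) (d M : ℕ)
    (hα : ∀ n, n ∉ Finset.Icc (-(d : ℤ)) d → α n = 0) (hM : K * d ≤ M) :
    Zf K α d = trace ((Matrix.of fun m n : Idx M => ((|(m : ℤ)| : ℤ) : ℂ) * α (n - m)) ^ K) -
      trace ((Matrix.of fun m n : Idx M => ((m : ℤ) : ℂ) * α (n - m)) ^ K) := by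
  rw [trace_walk (fun m => ((|m| : ℤ) : ℂ)) α M d hα, trace_walk (fun m => (m : ℂ)) α M d hα,
    ← Finset.sum_sub_distrib]
  unfold Zf
  refine Finset.sum_congr rfl fun j _ => ?_
  by_cases h : ∑ i, (j i : ℤ) = 0
  · rw [if_pos h, if_pos h, if_pos h, ← mul_sub, mul_comm]
    congr 1
    have hJ : ∑ m, |(j m : ℤ)| ≤ (M : ℤ) :=
      (sum_abs_le j).trans (by exact_mod_cast hM)
    rw [Nc_eq hK hK0 _ M hJ, ← Finset.sum_coe_sort (Finset.Icc (-(M : ℤ)) M), ← Finset.sum_sub_distrib]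
    push_cast
    refine Finset.sum_congr rfl fun a _ => ?_
    by_cases hall : ∀ i, (a : ℤ) + ps (fun l => (j l : ℤ)) i ∈ Finset.Icc (-(M : ℤ)) M
    · simp only [hall, if_true]
      unfold fpol
      rw [Finset.abs_prod]
      push_cast
      rfl
    · push Not at hall
      obtain ⟨i, hi⟩ := hall
      rw [Finset.prod_eq_zero (Finset.mem_univ i) (by rw [if_neg hi]),
        Finset.prod_eq_zero (Finset.mem_univ i) (by rw [if_neg hi]), sub_zero]
      have : |fpol (fun i => (j i : ℤ)) a| - fpol (fun i => (j i : ℤ)) a = 0 := by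
        by_contra hc
        have := bound_of_ne hK _ _ hc i
        apply hi
        rw [Finset.mem_Icc, ← abs_le]
        exact this.trans hJ
      exact_mod_cast this
  · rw [if_neg h, if_neg h, if_neg h, sub_zero]

end Pool.Agent.H793.ZI
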