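import Mathlib
import Pool.Agent.H793.ZI.Sgn

set_option autoImplicit false

namespace Pool.Agent.H793.ZI

open Matrix Finset
open scoped ComplexOrder Matrix

/-- The sign with value `1` at zero. -/
def sg (n : ℤ) : ℝ := if 0 ≤ n then 1 else -1

theorem sg_sq (n : ℤ) : sg n * sg n = 1 := by
  unfold sg; split_ifs <;> norm_num

theorem sg_abs (n : ℤ) : sg n * |(n : ℝ)| = n := by
  unfold sg
  split_ifs with h
  · rw [abs_of_nonneg (by exact_mod_cast h), one_mul]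
  · rw [abs_of_neg (by exact_mod_cast not_le.1 h)]; ring

variable (M : ℕ) (α : ℤ → ℂ)

noncomputable def Rm : Matrix (Idx M) (Idx M) ℂ :=
  diagonal fun n => ((Real.sqrt |((n : ℤ) : ℝ)| : ℝ) : ℂ)

noncomputable def Sm : Matrix (Idx M) (Idx M) ℂ := diagonal fun n => ((sg n : ℝ) : ℂ)

noncomputable def Tm : Matrix (Idx M) (Idx M) ℂ := Matrix.of fun m n => α (n - m)

noncomputable def Xm : Matrix (Idx M) (Idx M) ℂ := Rm M * Tm M α * Rm M

noncomputable def Ym : Matrix (Idx M) (Idx M) ℂ := Sm M * Xm M α * Sm M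

noncomputable def Dm : Matrix (Idx M) (Idx M) ℂ :=
  (1 / 2 : ℂ) • (Xm M α * Xm M α - Ym M α * Ym M α)

theorem Rm_herm : (Rm M)ᴴ = Rm M := by
  unfold Rm
  rw [diagonal_conjTranspose]
  congr 1
  funext n
  simp

theorem Sm_herm : (Sm M)ᴴ = Sm M := by
  unfold Sm
  rw [diagonal_conjTranspose]
  congr 1
  funext n
  simp

theorem Sm_sq : Sm M * Sm M = 1 := by
  unfold Sm
  rw [diagonal_mul_diagonal, ← diagonal_one]
  congr 1
  funext n
  rw [← Complex.ofReal_mul, sg_sq]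
  simp

variable {α}

theorem Tm_herm (hh : ∀ n, α (-n) = (starRingEnd ℂ) (α n)) : (Tm M α)ᴴ = Tm M α := by
  ext m n
  rw [conjTranspose_apply, Tm, Matrix.of_apply, Matrix.of_apply, Complex.star_def, ← hh]
  congr 1; ring

theorem Xm_herm (hh : ∀ n, α (-n) = (starRingEnd ℂ) (α n)) : (Xm M α).IsHermitian := by
  unfold Matrix.IsHermitian Xm
  rw [conjTranspose_mul, conjTranspose_mul, Rm_herm, Tm_herm M hh, Matrix.mul_assoc]

theorem Ym_herm (hh : ∀ n, α (-n) = (starRingEnd ℂ) (α n)) : (Ym M α).IsHermitian := by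
  unfold Matrix.IsHermitian Ym
  rw [conjTranspose_mul, conjTranspose_mul, Sm_herm, (Xm_herm M hh).eq, Matrix.mul_assoc]

variable (α)

theorem Y_sq : Ym M α * Ym M α = Sm M * (Xm M α * Xm M α) * Sm M := by
  unfold Ym
  calc Sm M * Xm M α * Sm M * (Sm M * Xm M α * Sm M)
      = Sm M * Xm M α * (Sm M * Sm M) * Xm M α * Sm M := by simp only [Matrix.mul_assoc]
    _ = _ := by rw [Sm_sq]; simp only [Matrix.mul_assoc, Matrix.one_mul]

theorem tr_Y (k : ℕ) : trace ((Ym M α * Ym M α) ^ k) = trace ((Xm M α * Xm M α) ^ k) := by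
  rw [Y_sq, trace_pow_comm]
  congr 2
  rw [← Matrix.mul_assoc, Sm_sq, Matrix.one_mul]

theorem RR : Rm M * Rm M = diagonal fun n : Idx M => ((|(n : ℤ)| : ℤ) : ℂ) := by
  unfold Rm
  rw [diagonal_mul_diagonal]
  congr 1
  funext n
  rw [← Complex.ofReal_mul, Real.mul_self_sqrt (abs_nonneg _), ← Int.cast_abs,
    Complex.ofReal_intCast]

theorem RSR : Rm M * Sm M * Rm M = diagonal fun n : Idx M => (((n : ℤ)) : ℂ) := by
  unfold Rm Sm
  rw [diagonal_mul_diagonal, diagonal_mul_diagonal]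
  congr 1
  funext n
  rw [← Complex.ofReal_mul, ← Complex.ofReal_mul, mul_right_comm,
    Real.mul_self_sqrt (abs_nonneg _), mul_comm, sg_abs]
  push_cast
  rfl

theorem diag_T (F : ℤ → ℂ) : diagonal (fun n : Idx M => F n) * Tm M α =
    Matrix.of fun m n : Idx M => F m * α (n - m) := by
  ext m n
  rw [diagonal_mul, Tm, Matrix.of_apply, Matrix.of_apply]

theorem tr_X (k : ℕ) : trace ((Xm M α * Xm M α) ^ k) =
    trace ((Matrix.of fun m n : Idx M => ((|(m : ℤ)| : ℤ) : ℂ) * α (n - m)) ^ (2 * k)) := by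
  rw [← sq, ← pow_mul, Xm, trace_pow_comm, ← Matrix.mul_assoc, RR,
    diag_T M α (fun m => ((|m| : ℤ) : ℂ))]

theorem tr_XY (k : ℕ) : trace ((Xm M α * Ym M α) ^ k) =
    trace ((Matrix.of fun m n : Idx M => ((m : ℤ) : ℂ) * α (n - m)) ^ (2 * k)) := by
  have h1 : Xm M α * Ym M α = (Rm M * Tm M α * (Rm M * Sm M)) ^ 2 := by
    rw [sq, Ym, Xm]
    simp only [Matrix.mul_assoc]
  rw [h1, ← pow_mul, trace_pow_comm]
  have h2 : Rm M * Sm M * (Rm M * Tm M α) = Rm M * Sm M * Rm M * Tm M α := by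
    simp only [Matrix.mul_assoc]
  rw [h2, RSR, diag_T M α (fun m => (m : ℂ))]

variable {α}

theorem herm_trace_im {n : Type*} [Fintype n] [DecidableEq n] {A : Matrix n n ℂ}
    (h : trace Aᴴ = trace A) : (trace A).im = 0 := by
  rw [trace_conjTranspose] at h
  exact Complex.conj_eq_iff_im.1 h

theorem Z_real {k d : ℕ} (hk : 2 ≤ k) (hα : ∀ n, n ∉ Finset.Icc (-(d : ℤ)) d → α n = 0)
    (hh : ∀ n, α (-n) = (starRingEnd ℂ) (α n)) : (Zf (2 * k) α d).im = 0 := by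
  rw [Zf_eq (even_two_mul k) (by omega) α d (2 * k * d) hα le_rfl,
    ← tr_X, ← tr_XY, Complex.sub_im]
  have hX := Xm_herm (2 * k * d) hh
  have hY := Ym_herm (2 * k * d) hh
  rw [herm_trace_im, herm_trace_im, sub_zero]
  · rw [conjTranspose_pow, conjTranspose_mul, hX.eq, hY.eq, trace_pow_comm]
  · rw [conjTranspose_pow, conjTranspose_mul, hX.eq]

theorem Z_lower {k d : ℕ} (hk : 2 ≤ k) (hα : ∀ n, n ∉ Finset.Icc (-(d : ℤ)) d → α n = 0)
    (hh : ∀ n, α (-n) = (starRingEnd ℂ) (α n)) (hM : 2 * k * d ≤ M) :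
    1 / 2 * ∑ i, (Real.sqrt (colsq (Dm M α) i)) ^ k ≤ (Zf (2 * k) α d).re := by
  refine (main_matrix (Xm_herm M hh) (Ym_herm M hh) hk (tr_Y M α k)).trans ?_
  rw [Zf_eq (even_two_mul k) (by omega) α d M hα hM, ← tr_X, ← tr_XY, Complex.sub_re]
  have := Complex.re_le_norm (trace ((Xm M α * Ym M α) ^ k))
  linarith

theorem X_entry (m i : Idx M) : (Xm M α * Xm M α) m i =
    ((Real.sqrt |((m : ℤ) : ℝ)| * Real.sqrt |((i : ℤ) : ℝ)| : ℝ) : ℂ) *
      ∑ l : Idx M, ((|(l : ℤ)| : ℤ) : ℂ) * (α (l - m) * α (i - l)) := by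
  have h1 : Xm M α * Xm M α = Rm M * (Tm M α * (Rm M * Rm M) * Tm M α) * Rm M := by
    unfold Xm; simp only [Matrix.mul_assoc]
  rw [h1, RR]
  unfold Rm
  rw [mul_diagonal, diagonal_mul, Matrix.mul_apply]
  simp only [mul_diagonal, Tm, Matrix.of_apply]
  rw [Complex.ofReal_mul, mul_right_comm]
  congr 1
  refine Finset.sum_congr rfl fun l _ => ?_
  ring

theorem D_entry (m i : Idx M) (hm : 0 < (m : ℤ)) (hi : (i : ℤ) < 0) :
    Dm M α m i = (Xm M α * Xm M α) m i := by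
  have hsm : sg m = 1 := by unfold sg; rw [if_pos hm.le]
  have hsi : sg i = -1 := by unfold sg; rw [if_neg (not_le.2 hi)]
  unfold Dm
  rw [Y_sq, Matrix.smul_apply, Matrix.sub_apply, Sm, mul_diagonal, diagonal_mul, hsm, hsi,
    smul_eq_mul]
  push_cast
  ring

/-- The quadratic Hankel form. -/
noncomputable def Gf (α : ℤ → ℂ) (d : ℕ) (m n : ℤ) : ℂ :=
  ∑ p ∈ Finset.Icc (-(d : ℤ)) d, ((|p - n| : ℤ) : ℂ) * (α p * α (m + n - p))

theorem G_entry {d : ℕ} (hα : ∀ n, n ∉ Finset.Icc (-(d : ℤ)) d → α n = 0)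
    (hh : ∀ n, α (-n) = (starRingEnd ℂ) (α n)) (m n : ℤ) (hm : 0 < m) (hmM : m + d ≤ M) :
    (starRingEnd ℂ) (∑ l : Idx M, ((|(l : ℤ)| : ℤ) : ℂ) * (α (l - m) * α (-n - l))) = Gf α d m n := by
  rw [map_sum]
  have h1 : ∀ l : Idx M, (starRingEnd ℂ) (((|(l : ℤ)| : ℤ) : ℂ) * (α (l - m) * α (-n - l))) =
      ((|(l : ℤ)| : ℤ) : ℂ) * (α (l + n) * α (m - l)) := by
    intro l
    rw [map_mul, map_mul, ← hh, ← hh, map_intCast]
    have e1 : -((l : ℤ) - m) = m - l := by ring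
    have e2 : -(-n - (l : ℤ)) = l + n := by ring
    rw [e1, e2, mul_comm (α (m - l))]
  rw [Finset.sum_congr rfl fun l _ => h1 l]
  have h2 : ∑ l : Idx M, ((|(l : ℤ)| : ℤ) : ℂ) * (α (l + n) * α (m - l)) =
      ∑' l : ℤ, ((|l| : ℤ) : ℂ) * (α (l + n) * α (m - l)) := by
    rw [tsum_eq_sum (s := Finset.Icc (-(M : ℤ)) M)]
    · exact Finset.sum_coe_sort (Finset.Icc (-(M : ℤ)) M)
        (fun l => ((|l| : ℤ) : ℂ) * (α (l + n) * α (m - l)))
    · intro l hl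
      rw [hα (m - l), mul_zero, mul_zero]
      simp only [Finset.mem_Icc, not_and_or, not_le] at hl ⊢
      rcases hl with h | h
      · right; linarith
      · left; linarith
  have h3 : Gf α d m n = ∑' p : ℤ, ((|p - n| : ℤ) : ℂ) * (α p * α (m + n - p)) := by
    rw [Gf, tsum_eq_sum (s := Finset.Icc (-(d : ℤ)) d)]
    intro p hp
    rw [hα p hp, zero_mul, mul_zero]
  rw [h2, h3, ← (Equiv.addRight n).tsum_eq
    (fun p => ((|p - n| : ℤ) : ℂ) * (α p * α (m + n - p)))]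
  refine tsum_congr fun l => ?_
  simp only [Equiv.coe_addRight, add_sub_cancel_right]
  have : m + n - (l + n) = m - l := by ring
  rw [this]

/-- Lower bound for the column sums. -/
theorem colsq_lower {d l : ℕ} (hα : ∀ n, n ∉ Finset.Icc (-(d : ℤ)) d → α n = 0)
    (hh : ∀ n, α (-n) = (starRingEnd ℂ) (α n)) (hl : 1 ≤ l) (hM : 6 * l + d ≤ M) (n : ℤ)
    (hn : n ∈ Finset.Icc (l : ℤ) (6 * l)) (i : Idx M) (hi : (i : ℤ) = -n) :
    (l : ℝ) ^ 2 * ∑ m ∈ Finset.Icc (l : ℤ) (6 * l), ‖Gf α d m n‖ ^ 2 ≤ colsq (Dm M α) i := by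
  have hn' := Finset.mem_Icc.1 hn
  have hl' : (1 : ℤ) ≤ l := by exact_mod_cast hl
  have hMz : 6 * (l : ℤ) + d ≤ M := by exact_mod_cast hM
  have hsub : ∀ m ∈ Finset.Icc (l : ℤ) (6 * l), m ∈ Finset.Icc (-(M : ℤ)) M := by
    intro m hm
    rw [Finset.mem_Icc] at hm ⊢
    constructor <;> linarith [hm.1, hm.2]
  have hentry : ∀ m : Idx M, (m : ℤ) ∈ Finset.Icc (l : ℤ) (6 * l) →
      (l : ℝ) ^ 2 * ‖Gf α d m n‖ ^ 2 ≤ ‖Dm M α m i‖ ^ 2 := by
    intro m hm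
    have hm' := Finset.mem_Icc.1 hm
    have hm0 : 0 < (m : ℤ) := by linarith [hm'.1]
    rw [D_entry M m i hm0 (by rw [hi]; linarith [hn'.1]), X_entry, norm_mul, hi]
    rw [← G_entry M hα hh m n hm0 (by linarith [hm'.2]), RCLike.norm_conj, Complex.norm_real,
      mul_pow]
    refine mul_le_mul_of_nonneg_right ?_ (by positivity)
    rw [Real.norm_eq_abs, sq_abs, mul_pow, Real.sq_sqrt (abs_nonneg _),
      Real.sq_sqrt (abs_nonneg _)]
    have e1 : (l : ℝ) ≤ |((m : ℤ) : ℝ)| := by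
      rw [abs_of_nonneg (by exact_mod_cast hm0.le)]
      exact_mod_cast hm'.1
    have e2 : (l : ℝ) ≤ |((-n : ℤ) : ℝ)| := by
      rw [Int.cast_neg, abs_neg, abs_of_nonneg (by
        have : 0 ≤ n := by linarith [hn'.1]
        exact_mod_cast this)]
      exact_mod_cast hn'.1
    rw [sq]
    exact mul_le_mul e1 e2 (by positivity) (abs_nonneg _)
  have h1 : (l : ℝ) ^ 2 * ∑ m ∈ Finset.Icc (l : ℤ) (6 * l), ‖Gf α d m n‖ ^ 2 =
      ∑ m : Idx M, if (m : ℤ) ∈ Finset.Icc (l : ℤ) (6 * l) then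
        (l : ℝ) ^ 2 * ‖Gf α d m n‖ ^ 2 else 0 := by
    have e1 := Finset.sum_coe_sort (Finset.Icc (-(M : ℤ)) M) (fun m => if m ∈ Finset.Icc (l : ℤ) (6 * l) then
        (l : ℝ) ^ 2 * ‖Gf α d m n‖ ^ 2 else 0)
    rw [e1, ← Finset.sum_filter, Finset.mul_sum]
    refine Finset.sum_congr ?_ fun _ _ => rfl
    ext m
    rw [Finset.mem_filter]
    exact ⟨fun h => ⟨hsub m h, h⟩, fun h => h.2⟩
  rw [h1, colsq]
  refine Finset.sum_le_sum fun m _ => ?_
  split_ifs with h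
  · exact hentry m h
  · positivity

end Pool.Agent.H793.ZI
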