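import Mathlib
import Pool.Agent.H793.ZI.Bnd

set_option autoImplicit false

namespace Pool.Agent.H793.ZI

open Finset

/-- The basic window. -/
def Wn (l : ℕ) (p : ℤ) : ℤ := max 0 ((p - l) * (6 * l - p))

theorem Wn_nonneg (l : ℕ) (p : ℤ) : 0 ≤ Wn l p := le_max_left _ _

theorem Wn_out (l : ℕ) (p : ℤ) (h : p ≤ l ∨ 6 * l ≤ p) : Wn l p = 0 := by
  unfold Wn
  refine max_eq_left ?_
  have hl : (0 : ℤ) ≤ l := by positivity
  rcases h with h | h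
  · exact mul_nonpos_of_nonpos_of_nonneg (by linarith) (by linarith)
  · exact mul_nonpos_of_nonneg_of_nonpos (by linarith) (by linarith)

theorem Wn_in (l : ℕ) (p : ℤ) (h1 : (l : ℤ) ≤ p) (h2 : p ≤ 6 * l) :
    Wn l p = (p - l) * (6 * l - p) := by
  unfold Wn
  exact max_eq_right (mul_nonneg (by linarith) (by linarith))

theorem Wn_le (l : ℕ) (p : ℤ) : 4 * Wn l p ≤ 25 * (l : ℤ) ^ 2 := by
  unfold Wn
  rcases max_cases 0 ((p - l) * (6 * (l : ℤ) - p)) with ⟨h, _⟩ | ⟨h, _⟩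
  · rw [h]; positivity
  · rw [h]; nlinarith [sq_nonneg (2 * p - 7 * (l : ℤ))]

theorem Wn_cases (l : ℕ) (p : ℤ) : (p < l) ∨ (6 * (l : ℤ) < p) ∨ ((l : ℤ) ≤ p ∧ p ≤ 6 * l) := by
  omega

theorem Wn_diff (l : ℕ) (hl : 1 ≤ l) (p : ℤ) : |Wn l (p + 1) - Wn l p| ≤ 5 * l := by
  have hl' : (1 : ℤ) ≤ l := by exact_mod_cast hl
  rcases lt_or_ge p (l : ℤ) with h | h
  · rw [Wn_out l (p + 1) (Or.inl (by omega)), Wn_out l p (Or.inl (by omega))]
    simp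
  · rcases lt_or_ge p (6 * (l : ℤ)) with h' | h'
    · rw [Wn_in l (p + 1) (by omega) (by omega), Wn_in l p (by omega) (by omega)]
      rw [abs_le]
      constructor <;> nlinarith
    · rw [Wn_out l (p + 1) (Or.inr (by omega)), Wn_out l p (Or.inr (by omega))]
      simp

theorem Wn_second (l : ℕ) (p : ℤ) (h : Wn l p ≠ 0) : Wn l (p + 1) + Wn l (p - 1) - 2 * Wn l p = -2 := by
  have h1 : (l : ℤ) < p := by
    by_contra hc
    exact h (Wn_out l p (Or.inl (by omega)))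
  have h2 : p < 6 * (l : ℤ) := by
    by_contra hc
    exact h (Wn_out l p (Or.inr (by omega)))
  rw [Wn_in l (p + 1) (by omega) (by omega), Wn_in l (p - 1) (by omega) (by omega),
    Wn_in l p (by omega) (by omega)]
  ring

theorem Wn_big (l : ℕ) (p : ℤ) (h1 : 2 * (l : ℤ) ≤ p) (h2 : p ≤ 4 * l) : 4 * (l : ℤ) ^ 2 ≤ Wn l p := by
  have hl : (0 : ℤ) ≤ l := by positivity
  rw [Wn_in l p (by omega) (by omega)]
  nlinarith [mul_nonneg (sub_nonneg.2 h1) (sub_nonneg.2 h2)]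

/-- The squared window, as a real function. -/
noncomputable def Un (l : ℕ) (p : ℤ) : ℝ := ((Wn l p : ℤ) : ℝ) ^ 2

theorem Un_out (l : ℕ) (p : ℤ) (h : p ≤ l ∨ 6 * l ≤ p) : Un l p = 0 := by
  unfold Un; rw [Wn_out l p h]; simp

theorem Un_nonneg (l : ℕ) (p : ℤ) : 0 ≤ Un l p := by unfold Un; positivity

theorem Wr_le (l : ℕ) (p : ℤ) : ((Wn l p : ℤ) : ℝ) ≤ 25 / 4 * (l : ℝ) ^ 2 := by
  have : ((4 * Wn l p : ℤ) : ℝ) ≤ ((25 * (l : ℤ) ^ 2 : ℤ) : ℝ) := by exact_mod_cast Wn_le l p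
  push_cast at this
  linarith

theorem Wr_nonneg (l : ℕ) (p : ℤ) : 0 ≤ ((Wn l p : ℤ) : ℝ) := by exact_mod_cast Wn_nonneg l p

theorem Wr_diff (l : ℕ) (hl : 1 ≤ l) (p : ℤ) :
    |((Wn l (p + 1) : ℤ) : ℝ) - ((Wn l p : ℤ) : ℝ)| ≤ 5 * l := by
  exact_mod_cast Wn_diff l hl p

theorem Un_abs (l : ℕ) (p : ℤ) : |Un l p| ≤ 40 * (l : ℝ) ^ 4 := by
  rw [abs_of_nonneg (Un_nonneg l p)]
  unfold Un
  have h1 := Wr_le l p
  have h2 := Wr_nonneg l p
  calc ((Wn l p : ℤ) : ℝ) ^ 2 ≤ (25 / 4 * (l : ℝ) ^ 2) ^ 2 := pow_le_pow_left₀ h2 h1 2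
    _ = (625 / 16) * (l : ℝ) ^ 4 := by ring
    _ ≤ _ := by
        have : (0 : ℝ) ≤ (l : ℝ) ^ 4 := by positivity
        linarith

theorem Un_diff (l : ℕ) (hl : 1 ≤ l) (p : ℤ) : |Un l (p + 1) - Un l p| ≤ 63 * (l : ℝ) ^ 3 := by
  unfold Un
  have h1 := Wr_diff l hl p
  have h2 := Wr_le l p
  have h3 := Wr_le l (p + 1)
  have h4 := Wr_nonneg l p
  have h5 := Wr_nonneg l (p + 1)
  have e : ((Wn l (p + 1) : ℤ) : ℝ) ^ 2 - ((Wn l p : ℤ) : ℝ) ^ 2 =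
      (((Wn l (p + 1) : ℤ) : ℝ) - ((Wn l p : ℤ) : ℝ)) *
        (((Wn l (p + 1) : ℤ) : ℝ) + ((Wn l p : ℤ) : ℝ)) := by ring
  rw [e, abs_mul, abs_of_nonneg (add_nonneg h5 h4)]
  calc _ ≤ (5 * (l : ℝ)) * (25 / 2 * (l : ℝ) ^ 2) :=
        mul_le_mul h1 (by linarith) (by linarith) (by positivity)
    _ = 125 / 2 * (l : ℝ) ^ 3 := by ring
    _ ≤ _ := by
        have : (0 : ℝ) ≤ (l : ℝ) ^ 3 := by positivity
        linarith

theorem Un_second (l : ℕ) (hl : 1 ≤ l) (p : ℤ) :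
    |Un l (p + 1) + Un l (p - 1) - 2 * Un l p| ≤ 50 * (l : ℝ) ^ 2 := by
  unfold Un
  have h1 := Wr_diff l hl p
  have h1' := Wr_diff l hl (p - 1)
  rw [sub_add_cancel, abs_sub_comm] at h1'
  have h2 := Wr_le l p
  have h4 := Wr_nonneg l p
  set x := ((Wn l (p + 1) : ℤ) : ℝ)
  set y := ((Wn l (p - 1) : ℤ) : ℝ)
  set w := ((Wn l p : ℤ) : ℝ)
  have e : x ^ 2 + y ^ 2 - 2 * w ^ 2 = 2 * w * (x + y - 2 * w) + (x - w) ^ 2 + (y - w) ^ 2 := by ring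
  have hx : (x - w) ^ 2 ≤ (5 * (l : ℝ)) ^ 2 := by
    rw [← sq_abs]; exact pow_le_pow_left₀ (abs_nonneg _) h1 2
  have hy : (y - w) ^ 2 ≤ (5 * (l : ℝ)) ^ 2 := by
    rw [← sq_abs]; exact pow_le_pow_left₀ (abs_nonneg _) h1' 2
  have hw : 2 * w * (x + y - 2 * w) = -4 * w := by
    by_cases hw0 : Wn l p = 0
    · have : w = 0 := by simp [w, hw0]
      rw [this]; ring
    · have := Wn_second l p hw0
      have h6 : x + y - 2 * w = -2 := by
        simp only [x, y, w]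
        exact_mod_cast this
      rw [h6]; ring
  rw [e, hw, abs_le]
  constructor <;> nlinarith [sq_nonneg (x - w), sq_nonneg (y - w)]

theorem Un_big (l : ℕ) (p : ℤ) (h1 : 2 * (l : ℤ) ≤ p) (h2 : p ≤ 4 * l) :
    16 * (l : ℝ) ^ 4 ≤ Un l p := by
  have h : 4 * (l : ℝ) ^ 2 ≤ ((Wn l p : ℤ) : ℝ) := by exact_mod_cast Wn_big l p h1 h2
  unfold Un
  calc 16 * (l : ℝ) ^ 4 = (4 * (l : ℝ) ^ 2) ^ 2 := by ring
    _ ≤ _ := pow_le_pow_left₀ (by positivity) h 2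

/-- Second difference of the Hankel form. -/
theorem Gf_second {α : ℤ → ℂ} {d : ℕ} (hα : ∀ n, n ∉ Finset.Icc (-(d : ℤ)) d → α n = 0) (p q : ℤ) :
    Gf α d (q - 1) (p + 1) + Gf α d (q + 1) (p - 1) - 2 * Gf α d q p = 2 * (α p * α q) := by
  unfold Gf
  rw [← Finset.sum_add_distrib, Finset.mul_sum, ← Finset.sum_sub_distrib]
  have h : ∀ r ∈ Finset.Icc (-(d : ℤ)) d,
      ((|r - (p + 1)| : ℤ) : ℂ) * (α r * α (q - 1 + (p + 1) - r)) +
        ((|r - (p - 1)| : ℤ) : ℂ) * (α r * α (q + 1 + (p - 1) - r)) -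
        2 * (((|r - p| : ℤ) : ℂ) * (α r * α (q + p - r))) =
      if r = p then 2 * (α p * α q) else 0 := by
    intro r _
    have e1 : q - 1 + (p + 1) - r = q + p - r := by ring
    have e2 : q + 1 + (p - 1) - r = q + p - r := by ring
    rw [e1, e2]
    split_ifs with hr
    · subst hr
      have e3 : r - (r + 1) = -1 := by ring
      have e4 : r - (r - 1) = 1 := by ring
      have e5 : q + r - r = q := by ring
      rw [e3, e4, e5]
      simp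
      ring
    · have : |r - (p + 1)| + |r - (p - 1)| - 2 * |r - p| = 0 := by
        rcases lt_or_gt_of_ne hr with h | h
        · rw [abs_of_nonpos (by omega), abs_of_nonpos (by omega), abs_of_nonpos (by omega)]
          ring
        · rw [abs_of_nonneg (by omega), abs_of_nonneg (by omega), abs_of_nonneg (by omega)]
          ring
      have h' : ((|r - (p + 1)| : ℤ) : ℂ) + ((|r - (p - 1)| : ℤ) : ℂ) - 2 * ((|r - p| : ℤ) : ℂ) = 0 := by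
        exact_mod_cast this
      linear_combination (α r * α (q + p - r)) * h'
  rw [Finset.sum_congr rfl h, Finset.sum_ite_eq']
  split_ifs with hp
  · rfl
  · rw [hα p hp]; ring

/-- Shifts of sums. -/
theorem shift_up (l : ℕ) (V : ℤ → ℝ) (hV : ∀ p : ℤ, (p ≤ l ∨ 6 * l ≤ p) → V p = 0) (F : ℤ → ℂ) :
    ∑ p ∈ Finset.Icc (l : ℤ) (6 * l), (V p : ℂ) * F (p + 1) =
      ∑ n ∈ Finset.Icc (l : ℤ) (6 * l), (V (n - 1) : ℂ) * F n := by
  have h1 : ∑ p ∈ Finset.Icc (l : ℤ) (6 * l), (V p : ℂ) * F (p + 1) =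
      ∑' p : ℤ, (V p : ℂ) * F (p + 1) := by
    rw [tsum_eq_sum (s := Finset.Icc (l : ℤ) (6 * l))]
    intro p hp
    rw [Finset.mem_Icc] at hp
    rw [hV p (by omega)]; simp
  have h2 : ∑ n ∈ Finset.Icc (l : ℤ) (6 * l), (V (n - 1) : ℂ) * F n =
      ∑' n : ℤ, (V (n - 1) : ℂ) * F n := by
    rw [tsum_eq_sum (s := Finset.Icc (l : ℤ) (6 * l))]
    intro p hp
    rw [Finset.mem_Icc] at hp
    rw [hV (p - 1) (by omega)]; simp
  rw [h1, h2, ← (Equiv.addRight (1 : ℤ)).tsum_eq (fun n => (V (n - 1) : ℂ) * F n)]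
  refine tsum_congr fun p => ?_
  simp

theorem shift_down (l : ℕ) (V : ℤ → ℝ) (hV : ∀ p : ℤ, (p ≤ l ∨ 6 * l ≤ p) → V p = 0) (F : ℤ → ℂ) :
    ∑ p ∈ Finset.Icc (l : ℤ) (6 * l), (V p : ℂ) * F (p - 1) =
      ∑ n ∈ Finset.Icc (l : ℤ) (6 * l), (V (n + 1) : ℂ) * F n := by
  have h1 : ∑ p ∈ Finset.Icc (l : ℤ) (6 * l), (V p : ℂ) * F (p - 1) =
      ∑' p : ℤ, (V p : ℂ) * F (p - 1) := by
    rw [tsum_eq_sum (s := Finset.Icc (l : ℤ) (6 * l))]
    intro p hp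
    rw [Finset.mem_Icc] at hp
    rw [hV p (by omega)]; simp
  have h2 : ∑ n ∈ Finset.Icc (l : ℤ) (6 * l), (V (n + 1) : ℂ) * F n =
      ∑' n : ℤ, (V (n + 1) : ℂ) * F n := by
    rw [tsum_eq_sum (s := Finset.Icc (l : ℤ) (6 * l))]
    intro p hp
    rw [Finset.mem_Icc] at hp
    rw [hV (p + 1) (by omega)]; simp
  rw [h1, h2, ← (Equiv.subRight (1 : ℤ)).tsum_eq (fun n => (V (n + 1) : ℂ) * F n)]
  refine tsum_congr fun p => ?_
  simp

/-- The bilinear sums. -/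
noncomputable def Bl (l : ℕ) (e : ℤ → ℂ) (G : ℤ → ℤ → ℂ) (a b : ℤ → ℝ) : ℂ :=
  ∑ n ∈ Finset.Icc (l : ℤ) (6 * l), (a n : ℂ) * (e n *
    ∑ m ∈ Finset.Icc (l : ℤ) (6 * l), (b m : ℂ) * (e m * G m n))

theorem square_eq {α : ℤ → ℂ} {d : ℕ} (hα : ∀ n, n ∉ Finset.Icc (-(d : ℤ)) d → α n = 0) (l : ℕ)
    (e : ℤ → ℂ) (he : ∀ a b, e (a + b) = e a * e b) :
    2 * (∑ p ∈ Finset.Icc (l : ℤ) (6 * l), (Un l p : ℂ) * (α p * e p)) ^ 2 =
      Bl l e (Gf α d) (fun n => Un l (n + 1) + Un l (n - 1) - 2 * Un l n) (Un l) +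
      Bl l e (Gf α d) (Un l) (fun m => Un l (m + 1) + Un l (m - 1) - 2 * Un l m) +
      Bl l e (Gf α d) (fun n => Un l (n + 1) - Un l n) (fun m => Un l (m - 1) - Un l m) +
      Bl l e (Gf α d) (fun n => Un l (n - 1) - Un l n) (fun m => Un l (m + 1) - Un l m) := by
  have hU := Un_out l
  have hee : ∀ p q : ℤ, e (p + 1) * e (q - 1) = e p * e q := by
    intro p q
    rw [← he, ← he]; congr 1; ring
  have hee' : ∀ p q : ℤ, e (p - 1) * e (q + 1) = e p * e q := by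
    intro p q
    rw [← he, ← he]; congr 1; ring
  have h1 : 2 * (∑ p ∈ Finset.Icc (l : ℤ) (6 * l), (Un l p : ℂ) * (α p * e p)) ^ 2 =
      ∑ p ∈ Finset.Icc (l : ℤ) (6 * l), (Un l p : ℂ) *
        (e (p + 1) * ∑ q ∈ Finset.Icc (l : ℤ) (6 * l), (Un l q : ℂ) * (e (q - 1) * Gf α d (q - 1) (p + 1))) +
      ∑ p ∈ Finset.Icc (l : ℤ) (6 * l), (Un l p : ℂ) *
        (e (p - 1) * ∑ q ∈ Finset.Icc (l : ℤ) (6 * l), (Un l q : ℂ) * (e (q + 1) * Gf α d (q + 1) (p - 1))) -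
      2 * ∑ p ∈ Finset.Icc (l : ℤ) (6 * l), (Un l p : ℂ) *
        (e p * ∑ q ∈ Finset.Icc (l : ℤ) (6 * l), (Un l q : ℂ) * (e q * Gf α d q p)) := by
    rw [sq, Finset.sum_mul_sum]
    simp only [Finset.mul_sum]
    rw [← Finset.sum_add_distrib, ← Finset.sum_sub_distrib]
    refine Finset.sum_congr rfl fun p _ => ?_
    rw [← Finset.sum_add_distrib, ← Finset.sum_sub_distrib]
    refine Finset.sum_congr rfl fun q _ => ?_
    have := Gf_second hα p q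
    linear_combination (-((Un l p : ℂ) * (Un l q : ℂ) * e p * e q)) * this +
      (-(Un l p : ℂ) * (Un l q : ℂ) * Gf α d (q - 1) (p + 1)) * hee p q +
      (-(Un l p : ℂ) * (Un l q : ℂ) * Gf α d (q + 1) (p - 1)) * hee' p q
  have t1 : ∑ p ∈ Finset.Icc (l : ℤ) (6 * l), (Un l p : ℂ) *
        (e (p + 1) * ∑ q ∈ Finset.Icc (l : ℤ) (6 * l), (Un l q : ℂ) * (e (q - 1) * Gf α d (q - 1) (p + 1))) =
      Bl l e (Gf α d) (fun n => Un l (n - 1)) (fun m => Un l (m + 1)) := by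
    rw [shift_up l (Un l) hU (fun p => e p * ∑ q ∈ Finset.Icc (l : ℤ) (6 * l), (Un l q : ℂ) * (e (q - 1) * Gf α d (q - 1) p))]
    unfold Bl
    refine Finset.sum_congr rfl fun n _ => ?_
    rw [shift_down l (Un l) hU (fun q => e q * Gf α d q n)]
  have t2 : ∑ p ∈ Finset.Icc (l : ℤ) (6 * l), (Un l p : ℂ) *
        (e (p - 1) * ∑ q ∈ Finset.Icc (l : ℤ) (6 * l), (Un l q : ℂ) * (e (q + 1) * Gf α d (q + 1) (p - 1))) =
      Bl l e (Gf α d) (fun n => Un l (n + 1)) (fun m => Un l (m - 1)) := by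
    rw [shift_down l (Un l) hU (fun p => e p * ∑ q ∈ Finset.Icc (l : ℤ) (6 * l), (Un l q : ℂ) * (e (q + 1) * Gf α d (q + 1) p))]
    unfold Bl
    refine Finset.sum_congr rfl fun n _ => ?_
    rw [shift_up l (Un l) hU (fun q => e q * Gf α d q n)]
  rw [h1, t1, t2]
  unfold Bl
  simp only [Finset.mul_sum]
  rw [← Finset.sum_add_distrib, ← Finset.sum_sub_distrib, ← Finset.sum_add_distrib,
    ← Finset.sum_add_distrib, ← Finset.sum_add_distrib]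
  refine Finset.sum_congr rfl fun n _ => ?_
  rw [← Finset.sum_add_distrib, ← Finset.sum_sub_distrib, ← Finset.sum_add_distrib,
    ← Finset.sum_add_distrib, ← Finset.sum_add_distrib]
  refine Finset.sum_congr rfl fun m _ => ?_
  push_cast
  ring

end Pool.Agent.H793.ZI
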