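import Mathlib
import Pool.Agent.H793.ZI.Win

set_option autoImplicit false

namespace Pool.Agent.H793.ZI

open Finset

/-- Characters. -/
noncomputable def ch (Q : ℕ) (t : ℕ) (m : ℤ) : ℂ :=
  Complex.exp (2 * Real.pi * Complex.I * m / Q) ^ t

theorem ch_add (Q t : ℕ) (a b : ℤ) : ch Q t (a + b) = ch Q t a * ch Q t b := by
  unfold ch
  rw [← mul_pow, ← Complex.exp_add]
  congr 2
  push_cast
  ring

theorem ch_norm (Q t : ℕ) (m : ℤ) : ‖ch Q t m‖ = 1 := by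
  unfold ch
  rw [norm_pow]
  have : (2 * Real.pi * Complex.I * m / Q : ℂ) = ((2 * Real.pi * m / Q : ℝ) : ℂ) * Complex.I := by
    push_cast; ring
  rw [this, Complex.norm_exp_ofReal_mul_I, one_pow]

theorem ch_conj (Q t : ℕ) (m : ℤ) : (starRingEnd ℂ) (ch Q t m) = ch Q t (-m) := by
  unfold ch
  rw [map_pow, ← Complex.exp_conj]
  congr 2
  simp only [map_div₀, map_mul, Complex.conj_ofReal, Complex.conj_I, map_intCast, map_natCast]
  have : (starRingEnd ℂ) 2 = 2 := by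
    have := Complex.conj_ofNat (n := 2); simpa using this
  rw [this]
  push_cast
  ring

theorem ch_orth (Q : ℕ) (hQ : 0 < Q) (j : ℤ) (hj : |j| < Q) :
    ∑ t ∈ Finset.range Q, ch Q t j = if j = 0 then (Q : ℂ) else 0 := by
  unfold ch
  split_ifs with h
  · subst h; simp
  · set w := Complex.exp (2 * Real.pi * Complex.I * j / Q) with hw
    have hQ' : (Q : ℂ) ≠ 0 := by exact_mod_cast hQ.ne'
    have h1 : w ^ Q = 1 := by
      rw [hw, ← Complex.exp_nat_mul]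
      have : (Q : ℂ) * (2 * Real.pi * Complex.I * j / Q) = j * (2 * Real.pi * Complex.I) := by
        field_simp
      rw [this, Complex.exp_int_mul_two_pi_mul_I]
    have h2 : w ≠ 1 := by
      intro hc
      rw [hw, Complex.exp_eq_one_iff] at hc
      obtain ⟨n, hn⟩ := hc
      have h3 : (j : ℂ) = n * Q := by
        have hpi : (2 * Real.pi * Complex.I : ℂ) ≠ 0 := Complex.two_pi_I_ne_zero
        have : (2 * Real.pi * Complex.I : ℂ) * j = (2 * Real.pi * Complex.I) * (n * Q) := by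
          field_simp at hn
          linear_combination (2 * Real.pi * Complex.I) * hn
        exact mul_left_cancel₀ hpi this
      have h4 : j = n * Q := by exact_mod_cast h3
      have h5 : n ≠ 0 := by
        rintro rfl
        apply h
        rw [h4]; ring
      have h6 : (1 : ℤ) ≤ |n| := Int.one_le_abs h5
      rw [h4, abs_mul, abs_of_nonneg (by positivity : (0 : ℤ) ≤ (Q : ℤ))] at hj
      nlinarith [(by exact_mod_cast hQ : (0 : ℤ) < Q)]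
    have h3 := geom_sum_mul w Q
    rw [h1, sub_self] at h3
    rcases mul_eq_zero.1 h3 with h4 | h4
    · exact h4
    · exact absurd (sub_eq_zero.1 h4) h2

theorem parseval (l : ℕ) (hl : 1 ≤ l) (x : ℤ → ℂ) :
    ∑ t ∈ Finset.range (6 * l), ‖∑ m ∈ Finset.Icc (l : ℤ) (6 * l), x m * ch (6 * l) t m‖ ^ 2 =
      (6 * l : ℝ) * ∑ m ∈ Finset.Icc (l : ℤ) (6 * l), ‖x m‖ ^ 2 := by
  have h1 : ∀ t, ((‖∑ m ∈ Finset.Icc (l : ℤ) (6 * l), x m * ch (6 * l) t m‖ ^ 2 : ℝ) : ℂ) =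
      ∑ m ∈ Finset.Icc (l : ℤ) (6 * l), ∑ m' ∈ Finset.Icc (l : ℤ) (6 * l),
        x m * (starRingEnd ℂ) (x m') * ch (6 * l) t (m - m') := by
    intro t
    rw [← Complex.normSq_eq_norm_sq, ← Complex.mul_conj, map_sum, Finset.sum_mul_sum]
    refine Finset.sum_congr rfl fun m _ => Finset.sum_congr rfl fun m' _ => ?_
    rw [map_mul, ch_conj, sub_eq_add_neg m m', ch_add]
    ring
  have h2 : ((∑ t ∈ Finset.range (6 * l),
      ‖∑ m ∈ Finset.Icc (l : ℤ) (6 * l), x m * ch (6 * l) t m‖ ^ 2 : ℝ) : ℂ) =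
      (((6 * l : ℝ) * ∑ m ∈ Finset.Icc (l : ℤ) (6 * l), ‖x m‖ ^ 2 : ℝ) : ℂ) := by
    rw [Complex.ofReal_sum, Finset.sum_congr rfl fun t _ => h1 t, Finset.sum_comm]
    rw [Complex.ofReal_mul, Complex.ofReal_sum, Finset.mul_sum]
    refine Finset.sum_congr rfl fun m hm => ?_
    rw [Finset.sum_comm]
    have h3 : ∀ m' ∈ Finset.Icc (l : ℤ) (6 * l), ∑ t ∈ Finset.range (6 * l),
        x m * (starRingEnd ℂ) (x m') * ch (6 * l) t (m - m') =
        if m' = m then ((6 * l : ℝ) : ℂ) * ((‖x m‖ ^ 2 : ℝ) : ℂ) else 0 := by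
      intro m' hm'
      rw [← Finset.mul_sum, ch_orth (6 * l) (by omega) (m - m')]
      · split_ifs with a b b
        · have : m' = m := by linarith
          subst this
          rw [Complex.mul_conj, Complex.normSq_eq_norm_sq]
          push_cast; ring
        · exact absurd (by linarith) b
        · exact absurd (by linarith) a
        · ring
      · rw [Finset.mem_Icc] at hm hm'
        have : (1 : ℤ) ≤ l := by exact_mod_cast hl
        rw [abs_lt]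
        push_cast
        constructor <;> linarith [hm.1, hm.2, hm'.1, hm'.2]
    rw [Finset.sum_congr rfl h3, Finset.sum_ite_eq', if_pos hm]
  exact_mod_cast h2

/-- Row norms of the Hankel form. -/
noncomputable def Gam (α : ℤ → ℂ) (d l : ℕ) (n : ℤ) : ℝ :=
  Real.sqrt (∑ m ∈ Finset.Icc (l : ℤ) (6 * l), ‖Gf α d m n‖ ^ 2)

theorem avg_norm (l : ℕ) (hl : 1 ≤ l) (x : ℤ → ℂ) :
    ∑ t ∈ Finset.range (6 * l), ‖∑ m ∈ Finset.Icc (l : ℤ) (6 * l), x m * ch (6 * l) t m‖ ≤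
      (6 * l : ℝ) * Real.sqrt (∑ m ∈ Finset.Icc (l : ℤ) (6 * l), ‖x m‖ ^ 2) := by
  have h := parseval l hl x
  have h2 := Finset.sum_mul_sq_le_sq_mul_sq (Finset.range (6 * l)) (fun _ => (1 : ℝ))
    (fun t => ‖∑ m ∈ Finset.Icc (l : ℤ) (6 * l), x m * ch (6 * l) t m‖)
  simp only [one_mul, one_pow, Finset.sum_const, Finset.card_range, nsmul_eq_mul, mul_one] at h2
  rw [h] at h2
  have h3 : (0 : ℝ) ≤ 6 * l := by positivity
  have h4 : (0 : ℝ) ≤ ∑ m ∈ Finset.Icc (l : ℤ) (6 * l), ‖x m‖ ^ 2 :=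
    Finset.sum_nonneg fun _ _ => by positivity
  refine le_of_sq_le_sq ?_ (by positivity) |>.trans le_rfl
  rw [mul_pow, Real.sq_sqrt h4]
  refine h2.trans (le_of_eq ?_)
  push_cast
  ring

theorem Bl_bound (α : ℤ → ℂ) (d l : ℕ) (hl : 1 ≤ l) (a b : ℤ → ℝ) (A B : ℝ) (hA : 0 ≤ A)
    (hB : 0 ≤ B) (ha : ∀ n, |a n| ≤ A) (hb : ∀ n, |b n| ≤ B) :
    ∑ t ∈ Finset.range (6 * l), ‖Bl l (ch (6 * l) t) (Gf α d) a b‖ ≤
      (6 * l : ℝ) * (A * B * ∑ n ∈ Finset.Icc (l : ℤ) (6 * l), Gam α d l n) := by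
  have h1 : ∀ t, ‖Bl l (ch (6 * l) t) (Gf α d) a b‖ ≤ ∑ n ∈ Finset.Icc (l : ℤ) (6 * l),
      A * ‖∑ m ∈ Finset.Icc (l : ℤ) (6 * l), ((b m : ℂ) * Gf α d m n) * ch (6 * l) t m‖ := by
    intro t
    unfold Bl
    refine (norm_sum_le _ _).trans (Finset.sum_le_sum fun n _ => ?_)
    rw [norm_mul, norm_mul, ch_norm, one_mul, Complex.norm_real, Real.norm_eq_abs]
    refine mul_le_mul (ha n) (le_of_eq ?_) (norm_nonneg _) hA
    congr 1
    refine Finset.sum_congr rfl fun m _ => ?_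
    ring
  have h2 : ∀ n, ∑ t ∈ Finset.range (6 * l),
      ‖∑ m ∈ Finset.Icc (l : ℤ) (6 * l), ((b m : ℂ) * Gf α d m n) * ch (6 * l) t m‖ ≤
      (6 * l : ℝ) * (B * Gam α d l n) := by
    intro n
    refine (avg_norm l hl _).trans ?_
    refine mul_le_mul_of_nonneg_left ?_ (by positivity)
    unfold Gam
    rw [Real.sqrt_le_iff]
    refine ⟨by positivity, ?_⟩
    rw [mul_pow, Real.sq_sqrt (Finset.sum_nonneg fun _ _ => by positivity), Finset.mul_sum]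
    refine Finset.sum_le_sum fun m _ => ?_
    rw [norm_mul, mul_pow, Complex.norm_real, Real.norm_eq_abs]
    exact mul_le_mul_of_nonneg_right (pow_le_pow_left₀ (abs_nonneg _) (hb m) 2) (by positivity)
  calc ∑ t ∈ Finset.range (6 * l), ‖Bl l (ch (6 * l) t) (Gf α d) a b‖
      ≤ ∑ t ∈ Finset.range (6 * l), ∑ n ∈ Finset.Icc (l : ℤ) (6 * l),
      A * ‖∑ m ∈ Finset.Icc (l : ℤ) (6 * l), ((b m : ℂ) * Gf α d m n) * ch (6 * l) t m‖ :=
        Finset.sum_le_sum fun t _ => h1 t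
    _ = ∑ n ∈ Finset.Icc (l : ℤ) (6 * l), A * ∑ t ∈ Finset.range (6 * l),
      ‖∑ m ∈ Finset.Icc (l : ℤ) (6 * l), ((b m : ℂ) * Gf α d m n) * ch (6 * l) t m‖ := by
        rw [Finset.sum_comm]
        exact Finset.sum_congr rfl fun n _ => (Finset.mul_sum _ _ _).symm
    _ ≤ ∑ n ∈ Finset.Icc (l : ℤ) (6 * l), A * ((6 * l : ℝ) * (B * Gam α d l n)) :=
        Finset.sum_le_sum fun n _ => mul_le_mul_of_nonneg_left (h2 n) hA
    _ = _ := by
        rw [Finset.mul_sum, Finset.mul_sum]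
        refine Finset.sum_congr rfl fun n _ => ?_
        ring

/-- The window inequality. -/
theorem window {α : ℤ → ℂ} {d : ℕ} (hα : ∀ n, n ∉ Finset.Icc (-(d : ℤ)) d → α n = 0) (l : ℕ)
    (hl : 1 ≤ l) :
    ∑ p ∈ Finset.Icc (l : ℤ) (6 * l), Un l p ^ 2 * ‖α p‖ ^ 2 ≤
      6000 * (l : ℝ) ^ 6 * ∑ n ∈ Finset.Icc (l : ℤ) (6 * l), Gam α d l n := by
  have hl0 : (0 : ℝ) < 6 * l := by
    have : (1 : ℝ) ≤ l := by exact_mod_cast hl
    linarith
  set G := ∑ n ∈ Finset.Icc (l : ℤ) (6 * l), Gam α d l n with hG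
  have hG0 : 0 ≤ G := Finset.sum_nonneg fun _ _ => Real.sqrt_nonneg _
  have e1 : ∑ t ∈ Finset.range (6 * l),
      ‖∑ p ∈ Finset.Icc (l : ℤ) (6 * l), (Un l p : ℂ) * (α p * ch (6 * l) t p)‖ ^ 2 =
      (6 * l : ℝ) * ∑ p ∈ Finset.Icc (l : ℤ) (6 * l), Un l p ^ 2 * ‖α p‖ ^ 2 := by
    have := parseval l hl (fun p => (Un l p : ℂ) * α p)
    simp only [norm_mul, mul_pow, Complex.norm_real, Real.norm_eq_abs, sq_abs] at this
    rw [← this]
    refine Finset.sum_congr rfl fun t _ => ?_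
    congr 2
    refine Finset.sum_congr rfl fun p _ => ?_
    ring
  have e2 : ∀ t, 2 * ‖∑ p ∈ Finset.Icc (l : ℤ) (6 * l), (Un l p : ℂ) * (α p * ch (6 * l) t p)‖ ^ 2 ≤
      ‖Bl l (ch (6 * l) t) (Gf α d) (fun n => Un l (n + 1) + Un l (n - 1) - 2 * Un l n) (Un l)‖ +
      ‖Bl l (ch (6 * l) t) (Gf α d) (Un l) (fun m => Un l (m + 1) + Un l (m - 1) - 2 * Un l m)‖ +
      ‖Bl l (ch (6 * l) t) (Gf α d) (fun n => Un l (n + 1) - Un l n) (fun m => Un l (m - 1) - Un l m)‖ +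
      ‖Bl l (ch (6 * l) t) (Gf α d) (fun n => Un l (n - 1) - Un l n) (fun m => Un l (m + 1) - Un l m)‖ := by
    intro t
    have h := square_eq hα l (ch (6 * l) t) (ch_add (6 * l) t)
    have h2 : 2 * ‖∑ p ∈ Finset.Icc (l : ℤ) (6 * l), (Un l p : ℂ) * (α p * ch (6 * l) t p)‖ ^ 2 =
        ‖2 * (∑ p ∈ Finset.Icc (l : ℤ) (6 * l), (Un l p : ℂ) * (α p * ch (6 * l) t p)) ^ 2‖ := by
      rw [norm_mul, norm_pow]; norm_num
    rw [h2, h]
    exact norm_add₄_le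
  have u0 := Un_abs l
  have u1 := Un_diff l hl
  have u1' : ∀ n : ℤ, |Un l (n - 1) - Un l n| ≤ 63 * (l : ℝ) ^ 3 := by
    intro n
    have := u1 (n - 1)
    rwa [sub_add_cancel, abs_sub_comm] at this
  have u2 := Un_second l hl
  have b1 := Bl_bound α d l hl _ _ (50 * (l : ℝ) ^ 2) (40 * (l : ℝ) ^ 4) (by positivity)
    (by positivity) u2 u0
  have b2 := Bl_bound α d l hl _ _ (40 * (l : ℝ) ^ 4) (50 * (l : ℝ) ^ 2) (by positivity)
    (by positivity) u0 u2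
  have b3 := Bl_bound α d l hl _ _ (63 * (l : ℝ) ^ 3) (63 * (l : ℝ) ^ 3) (by positivity)
    (by positivity) u1 u1'
  have b4 := Bl_bound α d l hl _ _ (63 * (l : ℝ) ^ 3) (63 * (l : ℝ) ^ 3) (by positivity)
    (by positivity) u1' u1
  have e3 := Finset.sum_le_sum fun t (_ : t ∈ Finset.range (6 * l)) => e2 t
  rw [← Finset.mul_sum, e1, Finset.sum_add_distrib, Finset.sum_add_distrib,
    Finset.sum_add_distrib] at e3
  rw [← hG] at b1 b2 b3 b4
  have e4 : (6 * l : ℝ) * (2 * ∑ p ∈ Finset.Icc (l : ℤ) (6 * l), Un l p ^ 2 * ‖α p‖ ^ 2) ≤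
      (6 * l : ℝ) * (2 * (6000 * (l : ℝ) ^ 6 * G)) := by
    have : (0 : ℝ) ≤ (l : ℝ) ^ 6 * G := by positivity
    have h7 : (6 * l : ℝ) * (50 * (l : ℝ) ^ 2 * (40 * (l : ℝ) ^ 4) * G) +
        (6 * l : ℝ) * (40 * (l : ℝ) ^ 4 * (50 * (l : ℝ) ^ 2) * G) +
        (6 * l : ℝ) * (63 * (l : ℝ) ^ 3 * (63 * (l : ℝ) ^ 3) * G) +
        (6 * l : ℝ) * (63 * (l : ℝ) ^ 3 * (63 * (l : ℝ) ^ 3) * G) =
        (6 * l : ℝ) * (11938 * ((l : ℝ) ^ 6 * G)) := by ring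
    have h8 : (6 * l : ℝ) * (11938 * ((l : ℝ) ^ 6 * G)) ≤ (6 * l : ℝ) * (2 * (6000 * (l : ℝ) ^ 6 * G)) := by
      refine mul_le_mul_of_nonneg_left ?_ hl0.le
      linarith
    linarith
  have e5 := le_of_mul_le_mul_left e4 hl0
  linarith

/-- The block inequality. -/
theorem block {α : ℤ → ℂ} {d : ℕ} (hα : ∀ n, n ∉ Finset.Icc (-(d : ℤ)) d → α n = 0) (l : ℕ)
    (hl : 1 ≤ l) :
    (l : ℝ) ^ 2 * ∑ p ∈ Finset.Ico (2 * l : ℤ) (4 * l), ‖α p‖ ^ 2 ≤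
      24 * ∑ n ∈ Finset.Icc (l : ℤ) (6 * l), Gam α d l n := by
  have hw := window hα l hl
  have hl0 : (0 : ℝ) < l := by
    have : (1 : ℝ) ≤ l := by exact_mod_cast hl
    linarith
  have h1 : ∑ p ∈ Finset.Ico (2 * l : ℤ) (4 * l), 256 * (l : ℝ) ^ 8 * ‖α p‖ ^ 2 ≤
      ∑ p ∈ Finset.Icc (l : ℤ) (6 * l), Un l p ^ 2 * ‖α p‖ ^ 2 := by
    refine le_trans (Finset.sum_le_sum fun p hp => ?_)
      (Finset.sum_le_sum_of_subset_of_nonneg (f := fun p => Un l p ^ 2 * ‖α p‖ ^ 2)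
        (s := Finset.Ico (2 * l : ℤ) (4 * l)) ?_ ?_)
    · rw [Finset.mem_Ico] at hp
      refine mul_le_mul_of_nonneg_right ?_ (by positivity)
      have := Un_big l p hp.1 hp.2.le
      calc 256 * (l : ℝ) ^ 8 = (16 * (l : ℝ) ^ 4) ^ 2 := by ring
        _ ≤ _ := pow_le_pow_left₀ (by positivity) this 2
    · intro p hp
      rw [Finset.mem_Ico] at hp
      rw [Finset.mem_Icc]
      constructor <;> omega
    · intro p _ _
      positivity
  rw [← Finset.mul_sum] at h1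
  have h2 : 256 * (l : ℝ) ^ 6 * ((l : ℝ) ^ 2 * ∑ p ∈ Finset.Ico (2 * l : ℤ) (4 * l), ‖α p‖ ^ 2) ≤
      256 * (l : ℝ) ^ 6 * (24 * ∑ n ∈ Finset.Icc (l : ℤ) (6 * l), Gam α d l n) := by
    have hG0 : 0 ≤ ∑ n ∈ Finset.Icc (l : ℤ) (6 * l), Gam α d l n :=
      Finset.sum_nonneg fun _ _ => Real.sqrt_nonneg _
    calc _ = 256 * (l : ℝ) ^ 8 * ∑ p ∈ Finset.Ico (2 * l : ℤ) (4 * l), ‖α p‖ ^ 2 := by ring
      _ ≤ _ := h1
      _ ≤ _ := hw
      _ ≤ _ := by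
        have : (0 : ℝ) ≤ (l : ℝ) ^ 6 * ∑ n ∈ Finset.Icc (l : ℤ) (6 * l), Gam α d l n := by
          positivity
        linarith
  exact le_of_mul_le_mul_left h2 (by positivity)

end Pool.Agent.H793.ZI
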