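import Mathlib
import Pool.Agent.H793.ZI.Par

set_option autoImplicit false

namespace Pool.Agent.H793.ZI

open Finset

theorem sum_pow_le_sum_pow {ι : Type*} (s : Finset ι) (f : ι → ℝ) (hf : ∀ i, 0 ≤ f i) (k : ℕ) :
    ∑ i ∈ s, f i ^ (k + 1) ≤ (∑ i ∈ s, f i) ^ (k + 1) := by
  rw [pow_succ, Finset.mul_sum]
  refine Finset.sum_le_sum fun i hi => ?_
  rw [pow_succ]
  refine mul_le_mul_of_nonneg_right ?_ (hf i)
  exact pow_le_pow_left₀ (hf i) (Finset.single_le_sum (f := f) (fun j _ => hf j) hi) k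

theorem sum_Ico_add (f : ℤ → ℝ) (a b c : ℤ) (hab : a ≤ b) (hbc : b ≤ c) :
    ∑ p ∈ Finset.Ico a b, f p + ∑ p ∈ Finset.Ico b c, f p = ∑ p ∈ Finset.Ico a c, f p := by
  rw [← Finset.Ico_union_Ico_eq_Ico hab hbc, Finset.sum_union (Finset.Ico_disjoint_Ico_consecutive a b c)]

theorem dyadic (f : ℤ → ℝ) (s J : ℕ) :
    ∑ j ∈ Finset.range J, ∑ p ∈ Finset.Ico ((2 : ℤ) ^ (j + s)) (2 ^ (j + s + 1)), f p =
      ∑ p ∈ Finset.Ico ((2 : ℤ) ^ s) (2 ^ (J + s)), f p := by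
  induction J with
  | zero => simp
  | succ J ih =>
    rw [Finset.sum_range_succ, ih, sum_Ico_add]
    · congr 2
      ring_nf
    · exact pow_le_pow_right₀ (by norm_num) (by omega)
    · exact pow_le_pow_right₀ (by norm_num) (by omega)

/-- Column norms. -/
noncomputable def cn (M : ℕ) (α : ℤ → ℂ) (n : ℤ) : ℝ :=
  if h : -n ∈ Finset.Icc (-(M : ℤ)) M then Real.sqrt (colsq (Dm M α) ⟨-n, h⟩) else 0

theorem cn_nonneg (M : ℕ) (α : ℤ → ℂ) (n : ℤ) : 0 ≤ cn M α n := by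
  unfold cn
  split_ifs
  · exact Real.sqrt_nonneg _
  · exact le_rfl

theorem sum_cn_le (M : ℕ) (α : ℤ → ℂ) (k : ℕ) (hk : 2 ≤ k) (s : Finset ℤ) :
    ∑ n ∈ s, cn M α n ^ k ≤ ∑ i, (Real.sqrt (colsq (Dm M α) i)) ^ k := by
  have h1 : ∑ i, (Real.sqrt (colsq (Dm M α) i)) ^ k = ∑ i : Idx M, cn M α (-i) ^ k := by
    refine Finset.sum_congr rfl fun i _ => ?_
    have : - -(i : ℤ) ∈ Finset.Icc (-(M : ℤ)) M := by rw [neg_neg]; exact i.2
    unfold cn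
    rw [dif_pos this]
    congr 4
    exact Subtype.ext (neg_neg _).symm
  have h2 : ∑ i : Idx M, cn M α (-i) ^ k = ∑ n ∈ Finset.Icc (-(M : ℤ)) M, cn M α n ^ k := by
    rw [Finset.sum_coe_sort (Finset.Icc (-(M : ℤ)) M) (fun n => cn M α (-n) ^ k)]
    refine Finset.sum_nbij' (fun n => -n) (fun n => -n) ?_ ?_ ?_ ?_ ?_
    · intro n hn; rw [Finset.mem_Icc] at hn ⊢; constructor <;> linarith [hn.1, hn.2]
    · intro n hn; rw [Finset.mem_Icc] at hn ⊢; constructor <;> linarith [hn.1, hn.2]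
    · intro n _; exact neg_neg n
    · intro n _; exact neg_neg n
    · intro n _; rfl
  rw [h1, h2]
  have h3 : ∑ n ∈ s, cn M α n ^ k = ∑ n ∈ s.filter (fun n => n ∈ Finset.Icc (-(M : ℤ)) M), cn M α n ^ k := by
    rw [Finset.sum_filter]
    refine Finset.sum_congr rfl fun n _ => ?_
    split_ifs with h
    · rfl
    · have : cn M α n = 0 := by
        unfold cn
        rw [dif_neg]
        intro hc
        apply h
        rw [Finset.mem_Icc] at hc ⊢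
        constructor <;> linarith [hc.1, hc.2]
      rw [this, zero_pow (by omega)]
  rw [h3]
  refine Finset.sum_le_sum_of_subset_of_nonneg ?_ fun n _ _ => pow_nonneg (cn_nonneg M α n) k
  intro n hn
  exact (Finset.mem_filter.1 hn).2

theorem Gam_le (M : ℕ) {α : ℤ → ℂ} {d l : ℕ}
    (hα : ∀ n, n ∉ Finset.Icc (-(d : ℤ)) d → α n = 0)
    (hh : ∀ n, α (-n) = (starRingEnd ℂ) (α n)) (hl : 1 ≤ l) (hM : 6 * l + d ≤ M) (n : ℤ)
    (hn : n ∈ Finset.Icc (l : ℤ) (6 * l)) : (l : ℝ) * Gam α d l n ≤ cn M α n := by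
  have hn' := Finset.mem_Icc.1 hn
  have hMz : 6 * (l : ℤ) + d ≤ M := by exact_mod_cast hM
  have h : -n ∈ Finset.Icc (-(M : ℤ)) M := by
    rw [Finset.mem_Icc]
    constructor <;> linarith [hn'.1, hn'.2]
  unfold cn
  rw [dif_pos h]
  have := colsq_lower M hα hh hl hM n hn ⟨-n, h⟩ rfl
  refine Real.le_sqrt_of_sq_le ?_
  rw [mul_pow]
  unfold Gam
  rwa [Real.sq_sqrt (Finset.sum_nonneg fun _ _ => by positivity)]

/-- The constant. -/
def Ck (k : ℕ) : ℝ := 4 ^ (2 * k + 1) * 24 ^ k * 6 ^ (k - 1)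

theorem block_pow (M : ℕ) {α : ℤ → ℂ} {d l k : ℕ} (hk : 2 ≤ k)
    (hα : ∀ n, n ∉ Finset.Icc (-(d : ℤ)) d → α n = 0)
    (hh : ∀ n, α (-n) = (starRingEnd ℂ) (α n)) (hl : 1 ≤ l) (hM : 6 * l + d ≤ M) :
    ∑ p ∈ Finset.Ico (2 * l : ℤ) (4 * l), (p : ℝ) ^ (2 * k + 1) * ‖α p‖ ^ (2 * k) ≤
      Ck k * ∑ n ∈ Finset.Icc (l : ℤ) (6 * l), cn M α n ^ k := by
  obtain ⟨q, rfl⟩ : ∃ q, k = q + 1 := ⟨k - 1, by omega⟩
  have hl0 : (1 : ℝ) ≤ l := by exact_mod_cast hl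
  set S := ∑ p ∈ Finset.Ico (2 * l : ℤ) (4 * l), ‖α p‖ ^ 2 with hS
  set T := ∑ n ∈ Finset.Icc (l : ℤ) (6 * l), cn M α n with hT
  set P := ∑ n ∈ Finset.Icc (l : ℤ) (6 * l), cn M α n ^ (q + 1) with hP
  have hS0 : 0 ≤ S := Finset.sum_nonneg fun _ _ => by positivity
  have hT0 : 0 ≤ T := Finset.sum_nonneg fun _ _ => cn_nonneg _ _ _
  have hP0 : 0 ≤ P := Finset.sum_nonneg fun _ _ => pow_nonneg (cn_nonneg _ _ _) _
  have h1 : (l : ℝ) ^ 3 * S ≤ 24 * T := by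
    have h2 := block hα l hl
    have h3 : (l : ℝ) * ∑ n ∈ Finset.Icc (l : ℤ) (6 * l), Gam α d l n ≤ T := by
      rw [Finset.mul_sum]
      exact Finset.sum_le_sum fun n hn => Gam_le M hα hh hl hM n hn
    calc (l : ℝ) ^ 3 * S = l * ((l : ℝ) ^ 2 * S) := by ring
      _ ≤ l * (24 * ∑ n ∈ Finset.Icc (l : ℤ) (6 * l), Gam α d l n) :=
        mul_le_mul_of_nonneg_left h2 (by linarith)
      _ = 24 * (l * ∑ n ∈ Finset.Icc (l : ℤ) (6 * l), Gam α d l n) := by ring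
      _ ≤ _ := by linarith
  have hcard : ((Finset.Icc (l : ℤ) (6 * l)).card : ℝ) ≤ 6 * l := by
    rw [Int.card_Icc]
    have : ((6 * (l : ℤ) + 1 - l).toNat : ℤ) ≤ 6 * l := by
      rw [Int.toNat_of_nonneg (by omega)]
      omega
    exact_mod_cast this
  have h2 : T ^ (q + 1) ≤ (6 * (l : ℝ)) ^ q * P := by
    refine (pow_sum_le_card_mul_sum_pow (s := Finset.Icc (l : ℤ) (6 * l)) (f := cn M α)
      (fun n _ => cn_nonneg M α n) q).trans ?_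
    exact mul_le_mul_of_nonneg_right (pow_le_pow_left₀ (by positivity) hcard q) hP0
  have h3 : ((l : ℝ) ^ 3 * S) ^ (q + 1) ≤ 24 ^ (q + 1) * ((6 * (l : ℝ)) ^ q * P) := by
    refine (pow_le_pow_left₀ (by positivity) h1 (q + 1)).trans ?_
    rw [mul_pow]
    exact mul_le_mul_of_nonneg_left h2 (by positivity)
  have h4 : (l : ℝ) ^ q * ((l : ℝ) ^ (2 * q + 3) * S ^ (q + 1)) ≤
      (l : ℝ) ^ q * (24 ^ (q + 1) * 6 ^ q * P) := by
    calc (l : ℝ) ^ q * ((l : ℝ) ^ (2 * q + 3) * S ^ (q + 1)) = ((l : ℝ) ^ 3 * S) ^ (q + 1) := by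
          rw [mul_pow, ← pow_mul]
          ring
      _ ≤ _ := h3
      _ = _ := by rw [mul_pow]; ring
  have h5 := le_of_mul_le_mul_left h4 (by positivity)
  have h6 : ∑ p ∈ Finset.Ico (2 * l : ℤ) (4 * l), (p : ℝ) ^ (2 * (q + 1) + 1) * ‖α p‖ ^ (2 * (q + 1)) ≤
      (4 * (l : ℝ)) ^ (2 * q + 3) * S ^ (q + 1) := by
    calc _ ≤ ∑ p ∈ Finset.Ico (2 * l : ℤ) (4 * l), (4 * (l : ℝ)) ^ (2 * q + 3) * (‖α p‖ ^ 2) ^ (q + 1) := by
          refine Finset.sum_le_sum fun p hp => ?_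
          rw [Finset.mem_Ico] at hp
          rw [pow_mul]
          refine mul_le_mul_of_nonneg_right ?_ (by positivity)
          have e : 2 * (q + 1) + 1 = 2 * q + 3 := by ring
          rw [e]
          refine pow_le_pow_left₀ ?_ ?_ _
          · have : (0 : ℤ) ≤ p := by omega
            exact_mod_cast this
          · exact_mod_cast hp.2.le
      _ = (4 * (l : ℝ)) ^ (2 * q + 3) * ∑ p ∈ Finset.Ico (2 * l : ℤ) (4 * l), (‖α p‖ ^ 2) ^ (q + 1) := by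
          rw [Finset.mul_sum]
      _ ≤ _ := mul_le_mul_of_nonneg_left
          (sum_pow_le_sum_pow _ _ (fun p => by positivity) q) (by positivity)
  refine h6.trans ?_
  rw [mul_pow, mul_assoc]
  calc (4 : ℝ) ^ (2 * q + 3) * ((l : ℝ) ^ (2 * q + 3) * S ^ (q + 1)) ≤
      4 ^ (2 * q + 3) * (24 ^ (q + 1) * 6 ^ q * P) := mul_le_mul_of_nonneg_left h5 (by positivity)
    _ = _ := by
      unfold Ck
      rw [Nat.add_sub_cancel]
      have e : 2 * (q + 1) + 1 = 2 * q + 3 := by ring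
      rw [e]; ring

/-- The bound for finitely supported sequences. -/
theorem fin_bound {α : ℤ → ℂ} {d k : ℕ} (hk : 2 ≤ k)
    (hα : ∀ n, n ∉ Finset.Icc (-(d : ℤ)) d → α n = 0)
    (hh : ∀ n, α (-n) = (starRingEnd ℂ) (α n)) (s : ℕ) :
    ∑ p ∈ Finset.Ico (2 : ℤ) (2 ^ (s + 1)), (p : ℝ) ^ (2 * k + 1) * ‖α p‖ ^ (2 * k) ≤
      6 * Ck k * (Zf (2 * k) α d).re := by
  set M := 2 * k * d + 6 * 2 ^ s + d with hM
  have hC0 : 0 ≤ Ck k := by unfold Ck; positivity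
  have hb : ∀ j ∈ Finset.range s, ∑ p ∈ Finset.Ico ((2 : ℤ) ^ (j + 1)) (2 ^ (j + 1 + 1)),
      (p : ℝ) ^ (2 * k + 1) * ‖α p‖ ^ (2 * k) ≤
      Ck k * (∑ n ∈ Finset.Ico ((2 : ℤ) ^ (j + 0)) (2 ^ (j + 0 + 1)), cn M α n ^ k +
        ∑ n ∈ Finset.Ico ((2 : ℤ) ^ (j + 1)) (2 ^ (j + 1 + 1)), cn M α n ^ k +
        ∑ n ∈ Finset.Ico ((2 : ℤ) ^ (j + 2)) (2 ^ (j + 2 + 1)), cn M α n ^ k) := by
    intro j hj
    rw [Finset.mem_range] at hj
    have h2 : 2 ^ j ≤ 2 ^ s := Nat.pow_le_pow_right (by norm_num) hj.le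
    have h1 := block_pow M hk hα hh (l := 2 ^ j) Nat.one_le_two_pow (by
      rw [hM]
      have : 6 * 2 ^ j ≤ 6 * 2 ^ s := by omega
      omega)
    have e1 : (2 * ((2 ^ j : ℕ) : ℤ)) = 2 ^ (j + 1) := by push_cast; ring
    have e2 : (4 * ((2 ^ j : ℕ) : ℤ)) = 2 ^ (j + 1 + 1) := by push_cast; ring
    rw [e1, e2] at h1
    refine h1.trans (mul_le_mul_of_nonneg_left ?_ hC0)
    rw [sum_Ico_add _ _ _ _ (pow_le_pow_right₀ (by norm_num) (by omega))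
      (pow_le_pow_right₀ (by norm_num) (by omega))]
    have e3 : (2 : ℤ) ^ (j + 1 + 1) = 2 ^ (j + 2) := by ring
    rw [e3, sum_Ico_add _ _ _ _ (pow_le_pow_right₀ (by norm_num) (by omega))
      (pow_le_pow_right₀ (by norm_num) (by omega))]
    refine Finset.sum_le_sum_of_subset_of_nonneg ?_ fun n _ _ => pow_nonneg (cn_nonneg M α n) k
    intro n hn
    rw [Finset.mem_Icc] at hn
    rw [Finset.mem_Ico]
    have e4 : (2 : ℤ) ^ (j + 2 + 1) = 8 * 2 ^ j := by ring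
    have e5 : (0 : ℤ) < 2 ^ j := by positivity
    push_cast at hn
    rw [e4, add_zero]
    constructor
    · exact hn.1
    · linarith [hn.2]
  have hsum := Finset.sum_le_sum hb
  rw [← Finset.mul_sum, Finset.sum_add_distrib, Finset.sum_add_distrib,
    dyadic (fun p => (p : ℝ) ^ (2 * k + 1) * ‖α p‖ ^ (2 * k)) 1 s,
    dyadic (fun n => cn M α n ^ k) 0 s, dyadic (fun n => cn M α n ^ k) 1 s,
    dyadic (fun n => cn M α n ^ k) 2 s, pow_one] at hsum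
  refine hsum.trans ?_
  have hZ := Z_lower M hk hα hh (by omega)
  have c1 := sum_cn_le M α k hk (Finset.Ico ((2 : ℤ) ^ 0) (2 ^ (s + 0)))
  have c2 := sum_cn_le M α k hk (Finset.Ico (2 : ℤ) (2 ^ (s + 1)))
  have c3 := sum_cn_le M α k hk (Finset.Ico ((2 : ℤ) ^ 2) (2 ^ (s + 2)))
  calc _ ≤ Ck k * (3 * ∑ i, (Real.sqrt (colsq (Dm M α) i)) ^ k) :=
        mul_le_mul_of_nonneg_left (by linarith) hC0
    _ ≤ Ck k * (6 * (Zf (2 * k) α d).re) := mul_le_mul_of_nonneg_left (by linarith) hC0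
    _ = _ := by ring

end Pool.Agent.H793.ZI
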