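import Mathlib
import Pool.Agent.H793.ZI.Dya

set_option autoImplicit false

namespace Pool.Agent.H793.ZI

open Finset Filter Topology

theorem one_add_sum_le {ι : Type*} (s : Finset ι) (x : ι → ℝ) (hx : ∀ i, 0 ≤ x i) :
    1 + ∑ i ∈ s, x i ≤ ∏ i ∈ s, (1 + x i) := by
  classical
  induction s using Finset.induction_on with
  | empty => simp
  | insert a s ha ih =>
    rw [Finset.sum_insert ha, Finset.prod_insert ha]
    have h1 : 0 ≤ ∑ i ∈ s, x i := Finset.sum_nonneg fun i _ => hx i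
    have h2 : (1 + x a) * (1 + ∑ i ∈ s, x i) ≤ (1 + x a) * ∏ i ∈ s, (1 + x i) :=
      mul_le_mul_of_nonneg_left ih (by linarith [hx a])
    nlinarith [mul_nonneg (hx a) h1]

theorem fpol_abs_le {K : ℕ} (j : Fin K → ℤ) (n : ℤ) (B : ℤ) (hn : |n| ≤ B) :
    |fpol j n| ≤ (B + ∑ m, |j m|) ^ K := by
  unfold fpol
  rw [Finset.abs_prod]
  calc ∏ i, |n + ps j i| ≤ ∏ _i : Fin K, (B + ∑ m, |j m|) :=
        Finset.prod_le_prod (fun i _ => abs_nonneg _) fun i _ =>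
          (abs_add_le _ _).trans (add_le_add hn (ps_abs_le j i))
    _ = _ := by simp

theorem Nc_nonneg {K : ℕ} (hK : Even K) (hK0 : 0 < K) (j : Fin K → ℤ) : 0 ≤ Nc j := by
  rw [Nc_eq hK hK0 j (∑ m, |j m|).toNat (Int.self_le_toNat _)]
  exact Finset.sum_nonneg fun n _ => by linarith [le_abs_self (fpol j n)]

theorem Nc_le {K : ℕ} (hK : Even K) (hK0 : 0 < K) (j : Fin K → ℤ) :
    (Nc j : ℝ) ≤ 2 ^ (K + 2) * ∏ i, (1 + |(j i : ℝ)|) ^ (K + 1) := by
  have hJ0 : 0 ≤ ∑ m, |j m| := Finset.sum_nonneg fun m _ => abs_nonneg _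
  obtain ⟨J, hJ⟩ : ∃ J : ℕ, ∑ m, |j m| = J := ⟨_, (Int.toNat_of_nonneg hJ0).symm⟩
  have h1 : Nc j ≤ (2 * J + 1) * (2 * (2 * J) ^ K) := by
    rw [Nc_eq hK hK0 j J hJ.le]
    calc ∑ n ∈ Finset.Icc (-(J : ℤ)) J, (|fpol j n| - fpol j n)
        ≤ ∑ _n ∈ Finset.Icc (-(J : ℤ)) J, (2 * (2 * (J : ℤ)) ^ K) := by
          refine Finset.sum_le_sum fun n hn => ?_
          rw [Finset.mem_Icc, ← abs_le] at hn
          have h2 := fpol_abs_le j n J hn
          rw [hJ, ← two_mul] at h2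
          have h3 := neg_abs_le (fpol j n)
          linarith
      _ = _ := by
          rw [Finset.sum_const, Int.card_Icc, nsmul_eq_mul]
          congr 1
          have : ((J : ℤ) + 1 - -(J : ℤ)) = ((2 * J + 1 : ℕ) : ℤ) := by push_cast; ring
          rw [this, Int.toNat_natCast]
          push_cast
          ring
  have h2 : (Nc j : ℝ) ≤ (2 * J + 1) * (2 * (2 * J) ^ K) := by exact_mod_cast h1
  have hJ' : (J : ℝ) = ∑ m, |(j m : ℝ)| := by
    have : ((∑ m, |j m| : ℤ) : ℝ) = ((J : ℤ) : ℝ) := by rw [hJ]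
    push_cast at this
    exact this.symm
  have h3 : 1 + (J : ℝ) ≤ ∏ i, (1 + |(j i : ℝ)|) := by
    rw [hJ']
    exact one_add_sum_le Finset.univ (fun i => |(j i : ℝ)|) fun i => abs_nonneg _
  have hJ1 : (0 : ℝ) ≤ J := by positivity
  calc (Nc j : ℝ) ≤ (2 * J + 1) * (2 * (2 * J) ^ K) := h2
    _ ≤ (2 * (1 + J)) * (2 * (2 * (1 + J)) ^ K) := by
        refine mul_le_mul (by linarith) ?_ (by positivity) (by positivity)
        refine mul_le_mul_of_nonneg_left (pow_le_pow_left₀ (by positivity) (by linarith) K)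
          (by norm_num)
    _ = 2 ^ (K + 2) * (1 + (J : ℝ)) ^ (K + 1) := by rw [mul_pow]; ring
    _ ≤ 2 ^ (K + 2) * (∏ i, (1 + |(j i : ℝ)|)) ^ (K + 1) :=
        mul_le_mul_of_nonneg_left (pow_le_pow_left₀ (by positivity) h3 _) (by positivity)
    _ = _ := by rw [Finset.prod_pow]

theorem summable_pi {g : ℤ → ℝ} (hg : Summable g) (h0 : ∀ n, 0 ≤ g n) (K : ℕ) :
    Summable fun j : Fin K → ℤ => ∏ i, g (j i) := by
  induction K with
  | zero => exact (hasSum_fintype _).summable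
  | succ K ih =>
    rw [← (Fin.consEquiv (fun _ : Fin (K + 1) => ℤ)).summable_iff]
    have h1 := hg.mul_of_nonneg ih h0 (fun j => Finset.prod_nonneg fun i _ => h0 _)
    refine h1.congr fun x => ?_
    simp only [Function.comp_apply]
    rw [Fin.prod_univ_succ]
    rfl

/-- Absolute convergence of the series. -/
theorem summable_Z {K : ℕ} (hK : Even K) (hK0 : 0 < K) {α : ℤ → ℂ}
    (hs : Summable fun n : ℤ => (1 + |(n : ℝ)|) ^ (K + 1) * ‖α n‖) :
    Summable fun j : Fin K → ℤ => (Nc j : ℂ) * ∏ i, α (j i) := by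
  have h1 := (summable_pi hs (fun n => by positivity) K).mul_left (2 ^ (K + 2))
  refine Summable.of_norm_bounded h1 fun j => ?_
  rw [norm_mul, norm_prod, Complex.norm_intCast]
  have h2 : |(Nc j : ℝ)| ≤ 2 ^ (K + 2) * ∏ i, (1 + |(j i : ℝ)|) ^ (K + 1) := by
    rw [abs_of_nonneg (by exact_mod_cast Nc_nonneg hK hK0 j)]
    exact Nc_le hK hK0 j
  calc |(Nc j : ℝ)| * ∏ i, ‖α (j i)‖ ≤
      (2 ^ (K + 2) * ∏ i, (1 + |(j i : ℝ)|) ^ (K + 1)) * ∏ i, ‖α (j i)‖ :=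
        mul_le_mul_of_nonneg_right h2 (Finset.prod_nonneg fun i _ => norm_nonneg _)
    _ = _ := by rw [mul_assoc, ← Finset.prod_mul_distrib]

/-- The cofinal sequence of finite index sets. -/
noncomputable def box (K d : ℕ) : Finset {j : Fin K → ℤ // ∑ i, j i = 0} :=
  (Fintype.piFinset fun _ : Fin K => Finset.Icc (-(d : ℤ)) d).subtype _

theorem mem_box {K d : ℕ} (j : {j : Fin K → ℤ // ∑ i, j i = 0}) :
    j ∈ box K d ↔ ∀ i, j.1 i ∈ Finset.Icc (-(d : ℤ)) d := by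
  unfold box
  rw [Finset.mem_subtype, Fintype.mem_piFinset]

theorem tendsto_box (K : ℕ) : Tendsto (box K) atTop atTop := by
  refine tendsto_atTop_finset_of_monotone ?_ ?_
  · intro d d' hd j hj
    rw [mem_box] at hj ⊢
    intro i
    have := hj i
    rw [Finset.mem_Icc] at this ⊢
    have hd' : (d : ℤ) ≤ d' := by exact_mod_cast hd
    constructor <;> linarith [this.1, this.2]
  · intro j
    refine ⟨(∑ i, |j.1 i|).toNat, ?_⟩
    rw [mem_box]
    intro i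
    rw [Finset.mem_Icc, ← abs_le]
    refine le_trans ?_ (Int.self_le_toNat _)
    exact Finset.single_le_sum (f := fun i => |j.1 i|) (fun i _ => abs_nonneg _) (mem_univ i)

theorem Zf_box (K d : ℕ) (α : ℤ → ℂ) :
    Zf K α d = ∑ j ∈ box K d, (Nc j.1 : ℂ) * ∏ i, α (j.1 i) := by
  unfold box Zf
  rw [Finset.sum_subtype_eq_sum_filter (f := fun j : Fin K → ℤ => (Nc j : ℂ) * ∏ i, α (j i)),
    Finset.sum_filter]
  refine Finset.sum_bij (fun j _ => fun i => (j i : ℤ)) ?_ ?_ ?_ ?_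
  · intro j _
    rw [Fintype.mem_piFinset]
    exact fun i => (j i).2
  · intro j _ j' _ h
    funext i
    exact Subtype.ext (congrFun h i)
  · intro j hj
    rw [Fintype.mem_piFinset] at hj
    exact ⟨fun i => ⟨j i, hj i⟩, Finset.mem_univ _, rfl⟩
  · intro j _
    rfl

/-- Shift by two, as an embedding. -/
def em : ℕ ↪ ℤ := ⟨fun n : ℕ => ((n + 2 : ℕ) : ℤ), by
  intro a b h
  change ((a + 2 : ℕ) : ℤ) = ((b + 2 : ℕ) : ℤ) at h
  omega⟩

/-- The truncated sequence. -/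
noncomputable def cut (α : ℤ → ℂ) (d : ℕ) (n : ℤ) : ℂ :=
  if n ∈ Finset.Icc (-(d : ℤ)) d then α n else 0

theorem cut_out (α : ℤ → ℂ) (d : ℕ) (n : ℤ) (hn : n ∉ Finset.Icc (-(d : ℤ)) d) : cut α d n = 0 :=
  if_neg hn

theorem cut_in (α : ℤ → ℂ) (d : ℕ) (n : ℤ) (hn : n ∈ Finset.Icc (-(d : ℤ)) d) : cut α d n = α n :=
  if_pos hn

theorem cut_herm {α : ℤ → ℂ} (hh : ∀ n, α (-n) = (starRingEnd ℂ) (α n)) (d : ℕ) (n : ℤ) :
    cut α d (-n) = (starRingEnd ℂ) (cut α d n) := by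
  unfold cut
  by_cases h : n ∈ Finset.Icc (-(d : ℤ)) d
  · have h' : -n ∈ Finset.Icc (-(d : ℤ)) d := by
      rw [Finset.mem_Icc] at h ⊢; constructor <;> linarith [h.1, h.2]
    rw [if_pos h, if_pos h', hh]
  · have h' : -n ∉ Finset.Icc (-(d : ℤ)) d := by
      intro hc
      apply h
      rw [Finset.mem_Icc] at hc ⊢; constructor <;> linarith [hc.1, hc.2]
    rw [if_neg h, if_neg h', map_zero]

theorem Zf_cut (K d : ℕ) (α : ℤ → ℂ) : Zf K (cut α d) d = Zf K α d := by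
  unfold Zf
  refine Finset.sum_congr rfl fun j _ => ?_
  simp only [cut_in α d _ (j _).2]

/-- The main inequality for rapidly decreasing sequences. -/
theorem main_seq {k : ℕ} (hk : 2 ≤ k) {α : ℤ → ℂ} (hh : ∀ n, α (-n) = (starRingEnd ℂ) (α n))
    (hs : Summable fun n : ℤ => (1 + |(n : ℝ)|) ^ (2 * k + 1) * ‖α n‖) :
    (Summable fun j : {j : Fin (2 * k) → ℤ // ∑ i, j i = 0} => (Nc j.1 : ℂ) * ∏ i, α (j.1 i)) ∧
    (∑' j : {j : Fin (2 * k) → ℤ // ∑ i, j i = 0}, (Nc j.1 : ℂ) * ∏ i, α (j.1 i)).im = 0 ∧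
    (Summable fun n : ℕ => ((n + 2 : ℕ) : ℝ) ^ (2 * k + 1) * ‖α ((n + 2 : ℕ) : ℤ)‖ ^ (2 * k)) ∧
    ∑' n : ℕ, ((n + 2 : ℕ) : ℝ) ^ (2 * k + 1) * ‖α ((n + 2 : ℕ) : ℤ)‖ ^ (2 * k) ≤
      6 * Ck k * (∑' j : {j : Fin (2 * k) → ℤ // ∑ i, j i = 0},
        (Nc j.1 : ℂ) * ∏ i, α (j.1 i)).re := by
  have hS : Summable fun j : {j : Fin (2 * k) → ℤ // ∑ i, j i = 0} =>
      (Nc j.1 : ℂ) * ∏ i, α (j.1 i) :=
    (summable_Z (even_two_mul k) (by omega) hs).subtype _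
  have hlim : Tendsto (fun d => Zf (2 * k) α d) atTop
      (𝓝 (∑' j : {j : Fin (2 * k) → ℤ // ∑ i, j i = 0}, (Nc j.1 : ℂ) * ∏ i, α (j.1 i))) := by
    have := hS.hasSum.comp (tendsto_box (2 * k))
    refine this.congr fun d => ?_
    exact (Zf_box (2 * k) d α).symm
  have him : (∑' j : {j : Fin (2 * k) → ℤ // ∑ i, j i = 0}, (Nc j.1 : ℂ) * ∏ i, α (j.1 i)).im = 0 := by
    have h1 := (Complex.continuous_im.tendsto _).comp hlim
    have h2 : (Complex.im ∘ fun d => Zf (2 * k) α d) = fun _ => 0 := by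
      funext d
      simp only [Function.comp_apply]
      rw [← Zf_cut]
      exact Z_real hk (cut_out α d) (cut_herm hh d)
    rw [h2] at h1
    exact (tendsto_nhds_unique h1 tendsto_const_nhds)
  have hC0 : 0 ≤ Ck k := by unfold Ck; positivity
  have hfin : ∀ s : ℕ, ∑ p ∈ Finset.Ico (2 : ℤ) (2 ^ (s + 1)), (p : ℝ) ^ (2 * k + 1) * ‖α p‖ ^ (2 * k) ≤
      6 * Ck k * (∑' j : {j : Fin (2 * k) → ℤ // ∑ i, j i = 0},
        (Nc j.1 : ℂ) * ∏ i, α (j.1 i)).re := by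
    intro s
    have h1 := ((Complex.continuous_re.tendsto _).comp hlim).const_mul (6 * Ck k)
    refine ge_of_tendsto h1 ?_
    filter_upwards [Filter.eventually_ge_atTop (2 ^ (s + 1))] with d hd
    have h2 := fin_bound hk (cut_out α d) (cut_herm hh d) s
    rw [Zf_cut] at h2
    refine le_trans (le_of_eq (Finset.sum_congr rfl fun p hp => ?_)) h2
    rw [Finset.mem_Ico] at hp
    rw [cut_in]
    rw [Finset.mem_Icc]
    have hd' : (2 : ℤ) ^ (s + 1) ≤ d := by exact_mod_cast hd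
    constructor <;> linarith [hp.1, hp.2]
  have hpart : ∀ u : Finset ℕ, ∑ n ∈ u, ((n + 2 : ℕ) : ℝ) ^ (2 * k + 1) * ‖α ((n + 2 : ℕ) : ℤ)‖ ^ (2 * k) ≤
      6 * Ck k * (∑' j : {j : Fin (2 * k) → ℤ // ∑ i, j i = 0},
        (Nc j.1 : ℂ) * ∏ i, α (j.1 i)).re := by
    intro u
    refine le_trans ?_ (hfin (u.sup id + 1))
    have e1 : ∑ n ∈ u, ((n + 2 : ℕ) : ℝ) ^ (2 * k + 1) * ‖α ((n + 2 : ℕ) : ℤ)‖ ^ (2 * k) =
        ∑ p ∈ u.map em, (p : ℝ) ^ (2 * k + 1) * ‖α p‖ ^ (2 * k) := by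
      rw [Finset.sum_map]
      refine Finset.sum_congr rfl fun n _ => ?_
      have : (((em n : ℤ)) : ℝ) = ((n + 2 : ℕ) : ℝ) := by
        change (((n + 2 : ℕ) : ℤ) : ℝ) = _
        push_cast; ring
      rw [this]
      rfl
    rw [e1]
    refine Finset.sum_le_sum_of_subset_of_nonneg ?_ ?_
    · intro p hp
      rw [Finset.mem_map] at hp
      obtain ⟨n, hn, rfl⟩ := hp
      rw [Finset.mem_Ico]
      change 2 ≤ ((n + 2 : ℕ) : ℤ) ∧ ((n + 2 : ℕ) : ℤ) < _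
      refine ⟨by push_cast; omega, ?_⟩
      have h1 : n ≤ u.sup id := Finset.le_sup (f := id) hn
      have h2 : n + 2 < 2 ^ (n + 2) := Nat.lt_two_pow_self
      have h3 : 2 ^ (n + 2) ≤ 2 ^ (u.sup id + 1 + 1) := Nat.pow_le_pow_right (by norm_num) (by omega)
      exact_mod_cast h2.trans_le h3
    · intro p hp _
      rw [Finset.mem_Ico] at hp
      have : (0 : ℝ) ≤ p := by
        have : (0 : ℤ) ≤ p := by omega
        exact_mod_cast this
      positivity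
  have hsum : Summable fun n : ℕ => ((n + 2 : ℕ) : ℝ) ^ (2 * k + 1) * ‖α ((n + 2 : ℕ) : ℤ)‖ ^ (2 * k) :=
    summable_of_sum_le (fun n => by positivity) hpart
  exact ⟨hS, him, hsum, hsum.tsum_le_of_sum_le hpart⟩

end Pool.Agent.H793.ZI
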