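import Mathlib
import Pool.Agent.H793.ZI.Lim

set_option autoImplicit false

namespace Pool.Agent.H793.ZI

open Finset Filter Topology
open scoped ContDiff

/-- Fourier coefficients of a real function on the circle. -/
noncomputable def fc (a : ℝ → ℝ) (n : ℤ) : ℂ :=
  ((1 / (2 * Real.pi) : ℝ) : ℂ) *
    ∫ θ in (0 : ℝ)..(2 * Real.pi), (a θ : ℂ) * Complex.exp (-(Complex.I * n * θ))

theorem fc_herm (a : ℝ → ℝ) (n : ℤ) : fc a (-n) = (starRingEnd ℂ) (fc a n) := by
  unfold fc
  rw [map_mul, Complex.conj_ofReal, intervalIntegral, intervalIntegral, map_sub, ← integral_conj,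
    ← integral_conj]
  have : ∀ θ : ℝ, (a θ : ℂ) * Complex.exp (-(Complex.I * (-n : ℤ) * θ)) =
      (starRingEnd ℂ) ((a θ : ℂ) * Complex.exp (-(Complex.I * n * θ))) := by
    intro θ
    rw [map_mul, Complex.conj_ofReal, ← Complex.exp_conj]
    congr 2
    simp only [map_neg, map_mul, Complex.conj_I, Complex.conj_ofReal, map_intCast]
    push_cast
    ring
  simp only [this]

theorem exp_norm (n : ℤ) (θ : ℝ) : ‖Complex.exp (-(Complex.I * n * θ))‖ = 1 := by
  have : -(Complex.I * n * θ) = ((-(n * θ) : ℝ) : ℂ) * Complex.I := by push_cast; ring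
  rw [this, Complex.norm_exp_ofReal_mul_I]

theorem fc_deriv {a : ℝ → ℝ} (ha : ContDiff ℝ ∞ a) (hp : Function.Periodic a (2 * Real.pi)) (n : ℤ) :
    fc (deriv a) n = Complex.I * n * fc a n := by
  have hd : Differentiable ℝ a := ha.differentiable (by simp)
  have hdc : Continuous (deriv a) := ha.continuous_deriv (by simp)
  have hu : ∀ x ∈ Set.uIcc (0 : ℝ) (2 * Real.pi), HasDerivAt (fun θ : ℝ => (a θ : ℂ)) ((deriv a x : ℝ) : ℂ) x :=
    fun x _ => (hd x).hasDerivAt.ofReal_comp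
  have hv : ∀ x ∈ Set.uIcc (0 : ℝ) (2 * Real.pi), HasDerivAt
      (fun θ : ℝ => Complex.exp (-(Complex.I * n * θ)))
      (-(Complex.I * n) * Complex.exp (-(Complex.I * n * x))) x := by
    intro x _
    have h1 : HasDerivAt (fun θ : ℝ => -(Complex.I * n * θ)) (-(Complex.I * n)) x := by
      have := ((Complex.ofRealCLM.hasDerivAt (x := x)).const_mul (-(Complex.I * n)))
      simpa using this
    have := h1.cexp
    convert this using 1
    ring
  have hi1 : IntervalIntegrable (fun x => ((deriv a x : ℝ) : ℂ)) MeasureTheory.volume 0 (2 * Real.pi) :=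
    (Complex.continuous_ofReal.comp hdc).intervalIntegrable _ _
  have hi2 : IntervalIntegrable (fun x : ℝ => -(Complex.I * n) * Complex.exp (-(Complex.I * n * x)))
      MeasureTheory.volume 0 (2 * Real.pi) := by
    apply Continuous.intervalIntegrable
    fun_prop
  have key := intervalIntegral.integral_mul_deriv_eq_deriv_mul hu hv hi1 hi2
  have e1 : a (2 * Real.pi) = a 0 := by
    have := hp 0
    rwa [zero_add] at this
  have e2 : Complex.exp (-(Complex.I * n * ((2 * Real.pi : ℝ) : ℂ))) = 1 := by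
    have : -(Complex.I * n * ((2 * Real.pi : ℝ) : ℂ)) = ((-n : ℤ) : ℂ) * (2 * Real.pi * Complex.I) := by
      push_cast; ring
    rw [this, Complex.exp_int_mul_two_pi_mul_I]
  rw [e1, e2] at key
  have e3 : ∫ x in (0 : ℝ)..(2 * Real.pi), (a x : ℂ) * (-(Complex.I * n) * Complex.exp (-(Complex.I * n * x))) =
      -(Complex.I * n) * ∫ x in (0 : ℝ)..(2 * Real.pi), (a x : ℂ) * Complex.exp (-(Complex.I * n * x)) := by
    rw [← intervalIntegral.integral_const_mul]
    congr 1
    funext x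
    ring
  rw [e3] at key
  simp only [Complex.ofReal_zero, mul_zero, neg_zero, Complex.exp_zero, mul_one, sub_self, zero_sub] at key
  unfold fc
  have e4 : ∫ x in (0 : ℝ)..(2 * Real.pi), ((deriv a x : ℝ) : ℂ) * Complex.exp (-(Complex.I * n * x)) =
      Complex.I * n * ∫ x in (0 : ℝ)..(2 * Real.pi), (a x : ℂ) * Complex.exp (-(Complex.I * n * x)) := by
    linear_combination key
  rw [e4]
  ring

theorem fc_bound {a : ℝ → ℝ} (ha : Continuous a) : ∃ C : ℝ, ∀ n : ℤ, ‖fc a n‖ ≤ C := by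
  obtain ⟨B, hB⟩ := (isCompact_Icc (a := (0 : ℝ)) (b := 2 * Real.pi)).exists_bound_of_continuousOn
    ha.continuousOn
  refine ⟨‖((1 / (2 * Real.pi) : ℝ) : ℂ)‖ * (B * |2 * Real.pi - 0|), fun n => ?_⟩
  unfold fc
  rw [norm_mul]
  refine mul_le_mul_of_nonneg_left ?_ (norm_nonneg _)
  refine intervalIntegral.norm_integral_le_of_norm_le_const fun x hx => ?_
  rw [norm_mul, exp_norm, mul_one, Complex.norm_real]
  rw [Set.uIoc_of_le (by positivity)] at hx
  exact hB x ⟨hx.1.le, hx.2⟩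

theorem deriv_periodic {a : ℝ → ℝ} (hp : Function.Periodic a (2 * Real.pi)) :
    Function.Periodic (deriv a) (2 * Real.pi) := by
  intro x
  have h : (fun y => a (y + 2 * Real.pi)) = a := by funext y; exact hp y
  have := deriv_comp_add_const a (2 * Real.pi) x
  rw [← this, h]

theorem fc_decay (m : ℕ) : ∀ {a : ℝ → ℝ}, ContDiff ℝ ∞ a → Function.Periodic a (2 * Real.pi) →
    ∃ C : ℝ, ∀ n : ℤ, |(n : ℝ)| ^ m * ‖fc a n‖ ≤ C := by
  induction m with
  | zero =>
    intro a ha _
    obtain ⟨C, hC⟩ := fc_bound ha.continuous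
    exact ⟨C, fun n => by simpa using hC n⟩
  | succ m ih =>
    intro a ha hp
    have h1 : ContDiff ℝ ∞ (deriv a) := by
      have := (contDiff_infty_iff_deriv (f := a)).1 ha
      exact this.2
    obtain ⟨C, hC⟩ := ih h1 (deriv_periodic hp)
    refine ⟨C, fun n => ?_⟩
    have := hC n
    rw [fc_deriv ha hp, norm_mul, norm_mul, Complex.norm_I, one_mul, Complex.norm_intCast] at this
    calc _ = |(n : ℝ)| ^ m * (|(n : ℝ)| * ‖fc a n‖) := by rw [pow_succ]; ring
      _ ≤ C := this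

theorem summable_int_sq : Summable fun n : ℤ => 1 / (1 + |(n : ℝ)|) ^ 2 := by
  have h : Summable fun n : ℕ => 1 / (1 + (n : ℝ)) ^ 2 := by
    have h1 := (summable_nat_add_iff (f := fun n : ℕ => 1 / (n : ℝ) ^ 2) 1).2
      (Real.summable_one_div_nat_pow.2 (by norm_num))
    refine h1.congr fun n => ?_
    push_cast
    rw [add_comm]
  apply Summable.of_nat_of_neg
  · refine h.congr fun n => ?_
    simp
  · refine h.congr fun n => ?_
    simp

theorem fc_summable {a : ℝ → ℝ} (ha : ContDiff ℝ ∞ a) (hp : Function.Periodic a (2 * Real.pi))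
    (K : ℕ) : Summable fun n : ℤ => (1 + |(n : ℝ)|) ^ K * ‖fc a n‖ := by
  obtain ⟨C1, h1⟩ := fc_decay 0 ha hp
  obtain ⟨C2, h2⟩ := fc_decay (K + 2) ha hp
  have hmain : ∀ n : ℤ, (1 + |(n : ℝ)|) ^ (K + 2) * ‖fc a n‖ ≤ 2 ^ (K + 2) * (|C1| + |C2|) := by
    intro n
    rcases eq_or_ne n 0 with rfl | hn
    · have := h1 0
      simp only [Int.cast_zero, abs_zero, pow_zero, one_mul] at this
      simp only [Int.cast_zero, abs_zero, add_zero, one_pow, one_mul]
      have h3 : (1 : ℝ) ≤ 2 ^ (K + 2) := one_le_pow₀ (by norm_num)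
      have h4 : ‖fc a 0‖ ≤ |C1| + |C2| := by
        linarith [le_abs_self C1, abs_nonneg C2]
      nlinarith [norm_nonneg (fc a 0)]
    · have hn1 : (1 : ℝ) ≤ |(n : ℝ)| := by
        have := Int.one_le_abs hn
        exact_mod_cast this
      calc (1 + |(n : ℝ)|) ^ (K + 2) * ‖fc a n‖ ≤ (2 * |(n : ℝ)|) ^ (K + 2) * ‖fc a n‖ :=
            mul_le_mul_of_nonneg_right (pow_le_pow_left₀ (by positivity) (by linarith) _)
              (norm_nonneg _)
        _ = 2 ^ (K + 2) * (|(n : ℝ)| ^ (K + 2) * ‖fc a n‖) := by rw [mul_pow]; ring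
        _ ≤ _ := mul_le_mul_of_nonneg_left (by
            linarith [h2 n, le_abs_self C2, abs_nonneg C1]) (by positivity)
  refine Summable.of_nonneg_of_le (fun n => by positivity) (fun n => ?_)
    (summable_int_sq.mul_left (2 ^ (K + 2) * (|C1| + |C2|)))
  have hpos : (0 : ℝ) < (1 + |(n : ℝ)|) ^ 2 := by positivity
  rw [mul_one_div, le_div_iff₀ hpos]
  calc (1 + |(n : ℝ)|) ^ K * ‖fc a n‖ * (1 + |(n : ℝ)|) ^ 2 =
      (1 + |(n : ℝ)|) ^ (K + 2) * ‖fc a n‖ := by rw [pow_add]; ring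
    _ ≤ _ := hmain n

end Pool.Agent.H793.ZI
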